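import Mathlib
import Pool.Agent.Y570.LK.Abs

/-!
H2xRK (helper2, MP_b5f63d_co): the hierarchy of a graph with `a` included and `b` excluded points.
-/

set_option autoImplicit false
set_option linter.unusedSectionVars false

namespace Pool.Agent.H2xRK

open Finset Pool.Agent.Y570
open Pool.Agent.Y570.KP (cond)
open Pool.Agent.Y570.LK (LC)
open Pool.Agent.Y509.LS (push push_card)

variable {V W : Type} [Fintype V] [DecidableEq V] [Fintype W] [DecidableEq W] {a b t M : ℕ}

/-- pseudo-independent sets of level `(a, b, t)` for the graph `R` -/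
structure GC (a b t : ℕ) (R : V → V → Prop) (y : Finset V → ℝ) : Prop where
  one : y ∅ = 1
  sep : ∀ S : Finset V, ∀ u ∈ S, ∀ v ∈ S, u ≠ v → R u v → y S = 0
  nonneg : ∀ D F : Finset V, D.card ≤ a + 2 * t → F.card ≤ b + 2 * t → 0 ≤ cond y D F ∅
  psd : ∀ D F : Finset V, D.card ≤ a → F.card ≤ b → ∀ f : Finset V → ℝ,
    (∀ S, t < S.card → f S = 0) → 0 ≤ ∑ S, ∑ T, f S * f T * cond y D F (S ∪ T)

lemma GC.lc {R : V → V → Prop} {y : Finset V → ℝ} (h : GC a b t R y) {s : ℕ} (ha : s ≤ a)
    (hb : s ≤ b) : LC s t R y :=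
  ⟨h.one, h.sep, fun D F _ => h.nonneg D F (by omega) (by omega),
    fun D F _ => h.psd D F (by omega) (by omega)⟩

lemma GC.mono {R : V → V → Prop} {y : Finset V → ℝ} {a' b' : ℕ} (h : GC a b t R y) (ha : a' ≤ a)
    (hb : b' ≤ b) : GC a' b' t R y :=
  ⟨h.one, h.sep, fun D F h1 h2 => h.nonneg D F (by omega) (by omega),
    fun D F h1 h2 => h.psd D F (by omega) (by omega)⟩

lemma GC.transport (e : W ≃ V) {R : V → V → Prop} {R' : W → W → Prop}
    (hR : ∀ u v, R' u v → R (e u) (e v)) {y : Finset V → ℝ} (h : GC a b t R y) :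
    GC a b t R' (fun S => y (S.map e.toEmbedding)) := by
  refine ⟨by simpa using h.one, ?_, ?_, ?_⟩
  · intro S u hu v hv huv hlt
    refine h.sep _ (e u) ?_ (e v) ?_ (fun he => huv (e.injective he)) (hR u v hlt)
    · exact Finset.mem_map_of_mem e.toEmbedding hu
    · exact Finset.mem_map_of_mem e.toEmbedding hv
  · intro D F hD hF
    rw [Pool.Agent.Y570.SP.cond_equiv, Finset.map_empty]
    exact h.nonneg _ _ (by rwa [Finset.card_map]) (by rwa [Finset.card_map])
  · intro D F hD hF f hf
    have h1 := h.psd (D.map e.toEmbedding) (F.map e.toEmbedding)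
      (by rwa [Finset.card_map]) (by rwa [Finset.card_map])
      (fun S => f (S.map e.symm.toEmbedding)) (fun S hS => hf _ (by rwa [Finset.card_map]))
    refine h1.trans (le_of_eq ?_)
    obtain ⟨E, hE⟩ : ∃ E : Finset W ≃ Finset V, ∀ S, E S = S.map e.toEmbedding :=
      ⟨e.finsetCongr, fun S => rfl⟩
    have hE2 : ∀ S : Finset W, (E S).map e.symm.toEmbedding = S := by
      intro S
      rw [hE]
      ext x
      simp
    rw [← Equiv.sum_comp E]
    refine Finset.sum_congr rfl fun S _ => ?_
    rw [← Equiv.sum_comp E]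
    refine Finset.sum_congr rfl fun T _ => ?_
    rw [hE2, hE2, Pool.Agent.Y570.SP.cond_equiv, hE, hE, Finset.map_union]

/-- the indicator of an independent set -/
lemma gc_one {R : V → V → Prop} (hR : ∀ u v, u ≠ v → ¬ R u v) : GC a b t R (fun _ => 1) := by
  have h1 : LC (a + b + 2 * t) t R (fun _ => 1) := Pool.Agent.Y570.LK.lc_one hR
  exact ⟨h1.one, h1.sep, fun D F hD hF => h1.nonneg D F (by omega),
    fun D F hD hF f hf => h1.psd D F (by omega) f hf⟩

variable {R : V → V → Prop} {y : Finset V → ℝ}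

/-- the quadratic form after the inclusion of `D` -/
lemma GC.form (hy : GC a b t R y) (ht : 1 ≤ t) (D : Finset V) (hD : D.card ≤ a)
    (c : Option V → ℝ) :
    0 ≤ ∑ i, ∑ j, c i * c j * y (D ∪ (i.toFinset ∪ j.toFinset)) := by
  have hF : ∀ o : Option V, o.toFinset.card ≤ t := by
    intro o
    cases o
    · exact Nat.zero_le _
    · simpa using ht
  have h1 := hy.psd D ∅ hD (by simp) (fun S => ∑ o : Option V, if o.toFinset = S then c o else 0)
    (push_card _ _ fun o ho => absurd (hF o) (by omega))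
  rw [push (fun o : Option V => o.toFinset) c] at h1
  simpa only [Pool.Agent.Y509.KP.cond_empty] using h1

lemma GC.nonneg0 (hy : GC a b t R y) (ht : 1 ≤ t) (D : Finset V)
    (hD : D.card ≤ a) : 0 ≤ y D := by
  have h := hy.form ht D hD (fun o => if o = none then 1 else 0)
  rw [Fintype.sum_option] at h
  simp only [Fintype.sum_option] at h
  simpa using h

lemma GC.nonneg' (hy : GC a b t R y) (ht : 1 ≤ t) (D : Finset V)
    (hD : D.card ≤ a) (x : V) : 0 ≤ y (insert x D) := by
  have h := hy.form ht D hD (fun o => if o = some x then 1 else 0)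
  have e1 : ∑ i, ∑ j, (if i = some x then (1 : ℝ) else 0) * (if j = some x then 1 else 0) *
      y (D ∪ (i.toFinset ∪ j.toFinset)) = y (insert x D) := by
    rw [Finset.sum_eq_single (some x)]
    · rw [Finset.sum_eq_single (some x)]
      · rw [if_pos rfl, one_mul, one_mul, Finset.union_self]
        congr 1
        ext z
        simp [or_comm]
      · intro j _ hj
        rw [if_neg hj]
        ring
      · intro h
        exact absurd (Finset.mem_univ _) h
    · intro i _ hi
      refine Finset.sum_eq_zero fun j _ => ?_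
      rw [if_neg hi]
      ring
    · intro h
      exact absurd (Finset.mem_univ _) h
  rw [e1] at h
  exact h

/-- the expected number of the points -/
noncomputable def TT (y : Finset V → ℝ) (D : Finset V) : ℝ :=
  ∑ x, y (insert x D)

lemma GC.cauchy (hy : GC a b t R y) (ht : 1 ≤ t) (D : Finset V)
    (hD : D.card ≤ a) : TT y D ^ 2 ≤ y D * ∑ x, TT y (insert x D) := by
  have h : ∀ c : ℝ, 0 ≤ y D * (c * c) + 2 * TT y D * c + ∑ x, TT y (insert x D) := by
    intro c
    have h1 := hy.form ht D hD (fun o => o.elim c fun _ => 1)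
    refine h1.trans (le_of_eq ?_)
    simp only [Fintype.sum_option, Option.elim_none, Option.elim_some, Option.toFinset_none,
      Option.toFinset_some, Finset.union_empty, Finset.empty_union]
    have e1 : ∀ x : V, D ∪ {x} = insert x D := by
      intro x
      ext z
      simp [or_comm]
    have e2 : ∀ x z : V, D ∪ ({x} ∪ {z}) = insert z (insert x D) := by
      intro x z
      ext w
      simp only [Finset.mem_union, Finset.mem_singleton, Finset.mem_insert]
      tauto
    simp only [e1, e2]
    rw [Finset.sum_add_distrib]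
    unfold TT
    simp only [mul_one, one_mul]
    rw [← Finset.mul_sum]
    ring
  have h2 := discrim_le_zero h
  unfold discrim at h2
  nlinarith

/-- the induction -/
lemma GC.bound (hy : GC a b t R y) (ht : 1 ≤ t) (hM : M ≤ a + 1)
    (hcode : ∀ C : Finset V, (∀ x ∈ C, ∀ z ∈ C, x ≠ z → ¬ R x z) → C.card ≤ M) (j : ℕ) :
    ∀ D : Finset V, D.card + j = M → TT y D ≤ M * y D := by
  have hsplit : ∀ (D : Finset V) (φ : V → ℝ),
      ∑ x, φ x = ∑ x ∈ D, φ x + ∑ x ∈ Dᶜ, φ x := by
    intro D φ
    exact (Finset.sum_add_sum_compl D φ).symm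
  have hin : ∀ (D : Finset V) (ψ : Finset V → ℝ),
      ∑ x ∈ D, ψ (insert x D) = D.card * ψ D := by
    intro D ψ
    rw [Finset.sum_congr rfl fun x hx => by rw [Finset.insert_eq_of_mem hx], Finset.sum_const,
      nsmul_eq_mul]
  induction j with
  | zero =>
    intro D hD
    have h1 : ∀ x ∈ Dᶜ, y (insert x D) = 0 := by
      intro x hx
      rw [Finset.mem_compl] at hx
      by_contra h2
      have h3 : (insert x D).card ≤ M := by
        refine hcode _ fun u hu v hv huv => ?_
        intro h4
        exact h2 (hy.sep _ u hu v hv huv h4)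
      rw [Finset.card_insert_of_notMem hx] at h3
      omega
    unfold TT
    rw [hsplit D, hin D y, Finset.sum_eq_zero h1, add_zero]
    have : D.card = M := by omega
    rw [this]
  | succ j ih =>
    intro D hD
    have hDa : D.card ≤ a := by omega
    have hY := hy.nonneg0 ht D hDa
    have hC := hy.cauchy ht D hDa
    obtain ⟨k, hk⟩ : ∃ k : ℝ, k = D.card := ⟨_, rfl⟩
    obtain ⟨T, hT⟩ : ∃ T : ℝ, T = TT y D := ⟨_, rfl⟩
    have hkM : k + 1 ≤ M := by
      rw [hk]
      exact_mod_cast (by omega : D.card + 1 ≤ M)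
    have h1 : T = k * y D + ∑ x ∈ Dᶜ, y (insert x D) := by
      rw [hT, hk]
      unfold TT
      rw [hsplit D, hin D y]
    have h2 : 0 ≤ ∑ x ∈ Dᶜ, y (insert x D) :=
      Finset.sum_nonneg fun x _ => hy.nonneg' ht D hDa x
    have h3 : ∑ x, TT y (insert x D) ≤ k * T + M * ∑ x ∈ Dᶜ, y (insert x D) := by
      rw [hsplit D, hin D (TT y), ← hk, ← hT, Finset.mul_sum]
      refine add_le_add le_rfl (Finset.sum_le_sum fun x hx => ?_)
      rw [Finset.mem_compl] at hx
      refine ih _ ?_
      rw [Finset.card_insert_of_notMem hx]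
      omega
    rw [← hT] at hC ⊢
    have h4 : T ^ 2 ≤ y D * (k * T + M * (T - k * y D)) := by
      refine hC.trans (mul_le_mul_of_nonneg_left (h3.trans (le_of_eq ?_)) hY)
      rw [h1]
      ring
    have h5 : k * y D ≤ T := by linarith
    by_contra h6
    rw [not_le] at h6
    have h7 : (T - k * y D) * (T - M * y D) ≤ 0 := by nlinarith
    have h8 : k * y D ≤ M * y D := mul_le_mul_of_nonneg_right (by linarith) hY
    have h9 : 0 < (T - k * y D) * (T - M * y D) :=
      mul_pos (by linarith) (by linarith)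
    linarith

/-- **The hierarchy is exact.** -/
theorem GC.exact (hy : GC a b t R y) (ht : 1 ≤ t) (hM : M ≤ a + 1)
    (hcode : ∀ C : Finset V, (∀ x ∈ C, ∀ z ∈ C, x ≠ z → ¬ R x z) → C.card ≤ M) :
    ∑ x, y {x} ≤ M := by
  have h := hy.bound ht hM hcode M ∅ (by simp)
  unfold TT at h
  rw [hy.one, mul_one] at h
  exact h

end Pool.Agent.H2xRK
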