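import Mathlib

/-!
H2xRK (helper2, MP_b5f63d_co): Gaussian sums over grids.
-/

set_option autoImplicit false
set_option linter.unusedSectionVars false

open MeasureTheory Metric

namespace Pool.Agent.H2xRK

abbrev E (n : ℕ) := EuclideanSpace ℝ (Fin n)

variable {n : ℕ}

lemma int_gauss0 {a : ℝ} (ha : 0 < a) :
    Integrable (fun w : E n => Real.exp (-a * ‖w‖ ^ 2)) ∧
    ∫ w : E n, Real.exp (-a * ‖w‖ ^ 2) = (Real.pi / a) ^ ((n : ℝ) / 2) := by
  have h1 := GaussianFourier.integral_rexp_neg_mul_sq_norm (V := E n) ha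
  rw [finrank_euclideanSpace_fin] at h1
  refine ⟨?_, h1⟩
  by_contra h
  rw [integral_undef h] at h1
  have h2 : 0 < (Real.pi / a) ^ ((n : ℝ) / 2) := Real.rpow_pos_of_pos (div_pos Real.pi_pos ha) _
  rw [← h1] at h2
  exact lt_irrefl _ h2

lemma sq_complete {a : ℝ} (ha : 0 < a) (p w : E n) :
    -a * ‖w‖ ^ 2 + 2 * inner ℝ p w = -a * ‖w - a⁻¹ • p‖ ^ 2 + ‖p‖ ^ 2 / a := by
  rw [norm_sub_sq_real, norm_smul, inner_smul_right, real_inner_comm, Real.norm_eq_abs,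
    abs_of_pos (inv_pos.2 ha)]
  field_simp
  ring

lemma int_gauss {a : ℝ} (ha : 0 < a) (p : E n) :
    Integrable (fun w : E n => Real.exp (-a * ‖w‖ ^ 2 + 2 * inner ℝ p w)) ∧
    ∫ w : E n, Real.exp (-a * ‖w‖ ^ 2 + 2 * inner ℝ p w) =
      (Real.pi / a) ^ ((n : ℝ) / 2) * Real.exp (‖p‖ ^ 2 / a) := by
  obtain ⟨h1, h2⟩ := int_gauss0 (n := n) ha
  have e1 : (fun w : E n => Real.exp (-a * ‖w‖ ^ 2 + 2 * inner ℝ p w)) =
      fun w => Real.exp (-a * ‖w - a⁻¹ • p‖ ^ 2) * Real.exp (‖p‖ ^ 2 / a) := by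
    funext w
    rw [sq_complete ha, Real.exp_add]
  rw [e1]
  refine ⟨(h1.comp_sub_right (a⁻¹ • p)).mul_const _, ?_⟩
  rw [integral_mul_const, integral_sub_right_eq_self (fun w : E n => Real.exp (-a * ‖w‖ ^ 2)), h2]

/-- sums over the cells -/
lemma sum_le_int {X : Finset (E n)} {F : Set (E n)} (hF : MeasurableSet F) (hFt : volume F ≠ ⊤)
    (hdis : ∀ x ∈ X, ∀ y ∈ X, x ≠ y → ∀ a ∈ F, ∀ b ∈ F, x + a ≠ y + b) {g φ : E n → ℝ} {C : ℝ}
    (hφ : Integrable φ) (hφ0 : ∀ w, 0 ≤ φ w) (hC : 0 ≤ C)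
    (hg : ∀ z ∈ X, ∀ a ∈ F, g z ≤ C * φ (z + a)) :
    (∑ z ∈ X, g z) * volume.real F ≤ C * ∫ w, φ w := by
  have h1 : ∀ y : E n, MeasurableSet ((fun a => y + a) '' F) ∧
      volume ((fun a => y + a) '' F) = volume F := by
    intro y
    rw [Set.image_add_left]
    exact ⟨hF.preimage (measurable_const_add _), measure_preimage_add _ _ _⟩
  have hdj : Set.Pairwise (X : Set (E n)) (Function.onFun Disjoint
      fun y => (fun a => y + a) '' F) := by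
    intro x hx y hy hxy
    rw [Function.onFun, Set.disjoint_left]
    rintro _ ⟨a, ha, rfl⟩ ⟨b, hb, h⟩
    exact hdis x hx y hy hxy a ha b hb h.symm
  have hCφ : Integrable (fun w => C * φ w) := hφ.const_mul C
  have h2 : ∀ z ∈ X, g z * volume.real F ≤ ∫ w in (fun a => z + a) '' F, C * φ w := by
    intro z hz
    have e1 : ∫ _w in (fun a => z + a) '' F, g z = g z * volume.real F := by
      rw [setIntegral_const, measureReal_def, (h1 z).2, ← measureReal_def, smul_eq_mul, mul_comm]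
    rw [← e1]
    refine setIntegral_mono_on ?_ hCφ.integrableOn (h1 z).1 ?_
    · refine integrableOn_const ?_
      rw [(h1 z).2]
      exact hFt
    · rintro _ ⟨a, ha, rfl⟩
      exact hg z hz a ha
  rw [Finset.sum_mul]
  refine (Finset.sum_le_sum h2).trans ?_
  rw [← integral_biUnion_finset X (fun y _ => (h1 y).1) hdj fun y _ => hCφ.integrableOn,
    ← integral_const_mul]
  refine setIntegral_le_integral hCφ (Filter.Eventually.of_forall fun w => ?_)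
  exact mul_nonneg hC (hφ0 w)

/-- Gaussian sums over the grid -/
theorem grid_sum {X : Finset (E n)} {F : Set (E n)} (hF : MeasurableSet F) (hFt : volume F ≠ ⊤)
    (hF0 : 0 < volume.real F) {δ : ℝ} (hFδ : F ⊆ closedBall 0 δ)
    (hdis : ∀ x ∈ X, ∀ y ∈ X, x ≠ y → ∀ a ∈ F, ∀ b ∈ F, x + a ≠ y + b)
    {B : ℝ} (hB : ∀ x ∈ X, ‖x‖ ≤ B) {a : ℝ} (ha : 0 < a) (p : E n) :
    ∑ z ∈ X, Real.exp (-a * ‖z‖ ^ 2 + 2 * inner ℝ p z) ≤
      (volume.real F)⁻¹ * Real.exp (a * (2 * B * δ + δ ^ 2) + 2 * ‖p‖ * δ) *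
        ((Real.pi / a) ^ ((n : ℝ) / 2) * Real.exp (‖p‖ ^ 2 / a)) := by
  obtain ⟨h1, h2⟩ := int_gauss ha p
  have h3 := sum_le_int (g := fun z => Real.exp (-a * ‖z‖ ^ 2 + 2 * inner ℝ p z))
    (C := Real.exp (a * (2 * B * δ + δ ^ 2) + 2 * ‖p‖ * δ)) hF hFt hdis h1
    (fun w => (Real.exp_pos _).le) (Real.exp_pos _).le ?_
  · rw [h2] at h3
    rw [mul_assoc, mul_comm (volume.real F)⁻¹, ← div_eq_mul_inv, le_div_iff₀ hF0]
    exact h3
  · intro z hz b hb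
    rw [← Real.exp_add, Real.exp_le_exp]
    have hb1 : ‖b‖ ≤ δ := by
      have := hFδ hb
      rwa [mem_closedBall_zero_iff] at this
    have hδ : 0 ≤ δ := (norm_nonneg b).trans hb1
    have hz1 := hB z hz
    have e1 : ‖z + b‖ ^ 2 ≤ ‖z‖ ^ 2 + (2 * B * δ + δ ^ 2) := by
      have e2 : ‖z + b‖ ≤ ‖z‖ + ‖b‖ := norm_add_le _ _
      have e3 : ‖z + b‖ ^ 2 ≤ (‖z‖ + ‖b‖) ^ 2 := pow_le_pow_left₀ (norm_nonneg _) e2 2
      have e4 : ‖z‖ * ‖b‖ ≤ B * δ := mul_le_mul hz1 hb1 (norm_nonneg _)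
        ((norm_nonneg z).trans hz1)
      have e5 : ‖b‖ ^ 2 ≤ δ ^ 2 := pow_le_pow_left₀ (norm_nonneg _) hb1 2
      nlinarith
    have e2 : -(‖p‖ * δ) ≤ inner ℝ p b := by
      have e3 := abs_real_inner_le_norm p b
      have e4 : ‖p‖ * ‖b‖ ≤ ‖p‖ * δ := mul_le_mul_of_nonneg_left hb1 (norm_nonneg _)
      have := (abs_le.1 e3).1
      linarith
    rw [inner_add_right]
    have e3 := mul_le_mul_of_nonneg_left e1 ha.le
    linarith

end Pool.Agent.H2xRK
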