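import Mathlib
import Pool.Agent.H2xRK.Abs
import Pool.Agent.H2xRK.Gauss
import Pool.Agent.Y570.SP.Sph

/-!
H2xRK (helper2, MP_b5f63d_co): the hierarchy for spherical codes.
-/

set_option autoImplicit false
set_option linter.unusedSectionVars false

open MeasureTheory Filter Topology

namespace Pool.Agent.H2xRK

open Pool.Agent.Y570.SP (dirs KC KS SBound SCode scode_of)

variable {n a b t : ℕ} {c : ℝ}

open Classical in
/-- pseudo-codes of level `(a, b, t)` on finite sets of unit vectors, with inner products `≤ c` -/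
structure GCode (n a b t : ℕ) (c : ℝ) (X : Finset (E n)) (y : Finset X → ℝ) : Prop where
  one : y ∅ = 1
  sep : ∀ S : Finset X, ∀ u ∈ S, ∀ v ∈ S, u ≠ v → c < inner ℝ (u : E n) v → y S = 0
  nonneg : ∀ D F : Finset X, D.card ≤ a + 2 * t → F.card ≤ b + 2 * t →
    0 ≤ Pool.Agent.Y570.KP.cond y D F ∅
  psd : ∀ D F : Finset X, D.card ≤ a → F.card ≤ b → ∀ f : Finset X → ℝ,
    (∀ S, t < S.card → f S = 0) → 0 ≤ ∑ S, ∑ T, f S * f T * Pool.Agent.Y570.KP.cond y D F (S ∪ T)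

/-- `B` bounds all pseudo-codes of level `(a, b, t)` -/
def GSB (n a b t : ℕ) (c B : ℝ) : Prop :=
  ∀ X : Finset (E n), (∀ x ∈ X, ‖x‖ = 1) → ∀ y : Finset X → ℝ, GCode n a b t c X y → ∑ x, y {x} ≤ B

/-- the bound of level `(a, b, t)` for spherical codes -/
noncomputable def GS (n a b t : ℕ) (c : ℝ) : ℝ := sInf {B : ℝ | GSB n a b t c B}

open Classical in
lemma gcode_iff (X : Finset (E n)) (y : Finset X → ℝ) :
    GCode n a b t c X y ↔ GC a b t (fun u v : X => c < inner ℝ (u : E n) v) y :=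
  ⟨fun h => ⟨h.one, h.sep, h.nonneg, h.psd⟩, fun h => ⟨h.one, h.sep, h.nonneg, h.psd⟩⟩

lemma gsb_card {B : ℝ} (h : GSB n a b t c B) {C : Finset (E n)} (hC : ∀ x ∈ C, ‖x‖ = 1)
    (hs : ∀ x ∈ C, ∀ z ∈ C, x ≠ z → inner ℝ x z ≤ c) : (C.card : ℝ) ≤ B := by
  classical
  have h1 := h C hC (fun _ => 1) ((gcode_iff _ _).2 (gc_one fun u v huv h' => by
    have := hs u u.2 v v.2 (fun h'' => huv (Subtype.ext h''))
    linarith))
  simpa using h1

lemma gsb_nonneg {B : ℝ} (h : GSB n a b t c B) : 0 ≤ B := by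
  have := gsb_card h (C := ∅) (by simp) (by simp)
  simpa using this

lemma gsb_mono {B : ℝ} {a' b' : ℕ} (ha : a' ≤ a) (hb : b' ≤ b) (h : GSB n a' b' t c B) :
    GSB n a b t c B :=
  fun X hX y hy => h X hX y ((gcode_iff _ _).2 (((gcode_iff _ _).1 hy).mono ha hb))

/-- comparison with the `2`-point bound -/
lemma gsb_of (ht : 1 ≤ t) {B : ℝ} (h : SBound n (0 + t + 1) c B) : GSB n a b t c B :=
  fun X hX y hy => h X hX y (scode_of
    ((((gcode_iff _ _).1 hy).lc (Nat.zero_le a) (Nat.zero_le b)).kc' ht))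

lemma exists_gsb (ht : 1 ≤ t) (hc : c < 1) : ∃ B, GSB n a b t c B := by
  obtain ⟨B, hB⟩ := Pool.Agent.Y570.SP.exists_sbound (n := n) (k := 0 + t + 1) (by omega) hc
  exact ⟨B, gsb_of ht hB⟩

lemma GS_le {B : ℝ} (h : GSB n a b t c B) : GS n a b t c ≤ B :=
  csInf_le ⟨0, fun _ h' => gsb_nonneg h'⟩ h

lemma le_GS (ht : 1 ≤ t) (hc : c < 1) {r : ℝ} (h : ∀ B, GSB n a b t c B → r ≤ B) :
    r ≤ GS n a b t c := le_csInf (exists_gsb ht hc) h

/-- exactness -/
theorem gsb_exact {M : ℕ} (ht : 1 ≤ t) (hM : M ≤ a + 1)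
    (hα : ∀ C : Finset (E n), (∀ x ∈ C, ‖x‖ = 1) → (∀ x ∈ C, ∀ z ∈ C, x ≠ z → inner ℝ x z ≤ c) →
      C.card ≤ M) : GSB n a b t c M := by
  classical
  intro X hX y hy
  refine ((gcode_iff _ _).1 hy).exact ht hM fun C hC => ?_
  have h1 := hα (C.map (Function.Embedding.subtype _)) (fun x hx => by
    rw [Finset.mem_map] at hx
    obtain ⟨z, -, rfl⟩ := hx
    exact hX z z.2) (fun x hx z hz hxz => by
    rw [Finset.mem_map] at hx hz
    obtain ⟨u, hu, rfl⟩ := hx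
    obtain ⟨v, hv, rfl⟩ := hz
    have := hC u hu v hv (fun h => hxz (by rw [h]))
    exact not_lt.1 this)
  rwa [Finset.card_map] at h1

/-- **Transfer to shells.** -/
theorem gtransfer (hn : 2 ≤ n) {r R B : ℝ} (hc : c < 1) (hr : 0 < r)
    (hR : (R - r) ^ 2 + 2 * (1 - c) * R ^ 2 ≤ 1) (h : GSB n a b t c B) {X : Finset (E n)}
    (hX : ∀ x ∈ X, r ≤ ‖x‖ ∧ ‖x‖ < R) [DecidableEq X] {y : Finset X → ℝ}
    (hy : GC a b t (fun u v : X => dist (u : E n) v < 1) y) : ∑ x, y {x} ≤ B := by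
  classical
  obtain ⟨ψ, h1, h2, h3⟩ := dirs hn hc hr hR X hX
  obtain ⟨X', hX'⟩ : ∃ X' : Finset (E n), X' = X.image ψ := ⟨_, rfl⟩
  have hmem : ∀ x : X, ψ x ∈ X' := fun x => by
    rw [hX']
    exact Finset.mem_image_of_mem ψ x.2
  obtain ⟨e', he'⟩ : ∃ e' : X ≃ X', ∀ x, (e' x : E n) = ψ x := by
    refine ⟨Equiv.ofBijective (fun x : X => (⟨ψ x, hmem x⟩ : X')) ⟨?_, ?_⟩, fun x => rfl⟩
    · intro x z hxz
      exact Subtype.ext (h1 x.2 z.2 (Subtype.mk.inj hxz))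
    · rintro ⟨w, hw⟩
      rw [hX', Finset.mem_image] at hw
      obtain ⟨x, hx, rfl⟩ := hw
      exact ⟨⟨x, hx⟩, rfl⟩
  have h4 : GC a b t (fun u v : X' => c < inner ℝ (u : E n) v)
      (fun S => y (S.map e'.symm.toEmbedding)) := by
    refine hy.transport e'.symm fun u v huv => ?_
    obtain ⟨x, rfl⟩ := e'.surjective u
    obtain ⟨z, rfl⟩ := e'.surjective v
    rw [e'.symm_apply_apply, e'.symm_apply_apply]
    rw [he', he'] at huv
    exact h3 x x.2 z z.2 huv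
  have h5 := h X' (fun w hw => by
    rw [hX', Finset.mem_image] at hw
    obtain ⟨x, hx, rfl⟩ := hw
    exact h2 x hx) _ ((gcode_iff _ _).2 (by convert h4))
  rw [Pool.Agent.Y570.SP.sum_transport] at h5
  exact h5

end Pool.Agent.H2xRK
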