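import Mathlib
import Pool.Agent.H2xSR.Param3

/-!
H2xRK (helper2, MP_b5f63d_co): conditioning on `a` included points and any number of excluded
points, when the intensity is small enough.
-/

set_option autoImplicit false
set_option linter.unusedSectionVars false

namespace Pool.Agent.H2xRK

open Finset Pool.Agent.Y570 Pool.Agent.Y570.LS Pool.Agent.H2xSX Pool.Agent.H2xSR

section

variable {X : Type} [Fintype X] [DecidableEq X] {g : X → X → ℝ} {K Λ σ ρ : ℝ}
variable {t : ℕ}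

/-- the constant of a conditioned form -/
noncomputable def Cs (K m : ℝ) (s t : ℕ) : ℝ :=
  (K ^ s) ^ t * (t + 1) * (m ^ t * (2 ^ t * (K ^ (t ^ 2) * (K ^ s) ^ t)))

/-- **The conditioned moment matrices of the product ansatz are positive semidefinite.** -/
theorem psd_cond4 {η m₀ m N : ℝ} {a s b : ℕ} (hk : KK g K Λ σ) (hsym : ∀ x y, g x y = g y x)
    (hg0 : ∀ x, g x x = 0) (hS : Sml3 K Λ σ ρ η m₀ a 0 t) (has : a ≤ s) (hm : 1 ≤ m)
    (hτ : (K ^ s * σ) ^ 2 * ρ ≤ m) (hs : b * (3 * (K ^ s * ρ)) ≤ 1 / 2)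
    (hN : η * t * (2 ^ t * (K ^ (t ^ 2) * (K ^ s) ^ t)) ≤ N)
    (hF : 2 * ((1 + N) * Cs K m s t) * ((2 * t) ^ (2 * t) * (2 * (b * (3 * (K ^ s * ρ))))) ≤ 1)
    (D E : Finset X) (hD : D.card ≤ a) (hDE : D.card + E.card ≤ s) (hE : E.card ≤ b)
    (f : Finset X → ℝ) (hf : ∀ S, t < S.card → f S = 0) :
    0 ≤ ∑ S, ∑ T, f S * f T * KP.cond (yy ρ g) D E (S ∪ T) := by
  have hK := hk.K1
  have hK0 : 0 ≤ K := by linarith
  have hn := hk.nonneg
  have hm0 : 0 ≤ m := by linarith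
  by_cases hDEd : Disjoint D E
  swap
  · obtain ⟨x, hx1, hx2⟩ := Finset.not_disjoint_iff.1 hDEd
    refine le_of_eq ?_
    symm
    refine Finset.sum_eq_zero fun S _ => Finset.sum_eq_zero fun T _ => ?_
    rw [KP.cond_zero (yy ρ g) hx2 (Finset.mem_union_left _ hx1), mul_zero]
  rw [cond_reduce]
  obtain ⟨φ, hφ⟩ : ∃ φ : Finset X → ℝ, φ = rd f D E := ⟨_, rfl⟩
  rw [← hφ]
  have hφc : ∀ S, t < S.card → φ S = 0 := by
    rw [hφ]
    exact rd_card hf D E
  have hφd : ∀ S, ¬ (Disjoint D S ∧ Disjoint E S) → φ S = 0 := by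
    rw [hφ]
    exact rd_disj f D E
  obtain ⟨Q, hQ⟩ : ∃ Q : Finset X → ℝ, Q = fun F => ∑ S, ∑ T, φ S * φ T *
      yp ρ g (gs g (D ∪ F)) (S ∪ T) := ⟨_, rfl⟩
  have h1 : ∑ S, ∑ T, φ S * φ T * KP.cond (yy ρ g) D E (S ∪ T) =
      ∑ F ∈ E.powerset, (-1) ^ F.card * (yy ρ g (D ∪ F) * Q F) := by
    have e1 : ∀ S T : Finset X, φ S * φ T * KP.cond (yy ρ g) D E (S ∪ T) =
        ∑ F ∈ E.powerset, (-1) ^ F.card * (yy ρ g (D ∪ F) * (φ S * φ T *
          yp ρ g (gs g (D ∪ F)) (S ∪ T))) := by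
      intro S T
      by_cases h2 : Disjoint D S ∧ Disjoint E S
      · by_cases h3 : Disjoint D T ∧ Disjoint E T
        · unfold KP.cond
          rw [Finset.mul_sum]
          refine Finset.sum_congr rfl fun F hF => ?_
          have hF' := Finset.mem_powerset.1 hF
          have hd : Disjoint (D ∪ F) (S ∪ T) := by
            rw [Finset.disjoint_union_left, Finset.disjoint_union_right,
              Finset.disjoint_union_right]
            exact ⟨⟨h2.1, h3.1⟩, Finset.disjoint_of_subset_left hF' h2.2,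
              Finset.disjoint_of_subset_left hF' h3.2⟩
          rw [yy_link hsym hn hd]
          ring
        · rw [hφd T h3]
          simp
      · rw [hφd S h2]
        simp
    rw [Finset.sum_congr rfl fun S _ => Finset.sum_congr rfl fun T _ => e1 S T]
    rw [Finset.sum_congr rfl fun S _ => Finset.sum_comm, Finset.sum_comm]
    refine Finset.sum_congr rfl fun F _ => ?_
    rw [hQ, Finset.mul_sum, Finset.mul_sum]
    refine Finset.sum_congr rfl fun S _ => ?_
    rw [Finset.mul_sum, Finset.mul_sum]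
  rw [h1]
  have hDc : D.card ≤ s := by omega
  have hcard : ∀ F ∈ E.powerset, (D ∪ F).card ≤ s := by
    intro F hF
    have h2 := Finset.card_le_card (Finset.mem_powerset.1 hF)
    have h3 := Finset.card_union_le D F
    omega
  obtain ⟨M, hM⟩ : ∃ M : ℝ, M = MM (yp ρ g (gs g D)) φ := ⟨_, rfl⟩
  have hYD := yp_pm hk hsym hS.hρ.le t (gs g D) (K ^ s) (one_le_pow₀ hK) (gs_nonneg hk D)
    (gs_le hk hDc)
  have hM0 : 0 ≤ M := by
    rw [hM]
    exact MM_nonneg hYD φ
  have hN0 : 0 ≤ N := by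
    refine le_trans ?_ hN
    have := hS.hη0
    positivity
  obtain ⟨C, hC⟩ : ∃ C : ℝ, C = Cs K m s t := ⟨_, rfl⟩
  have hC0 : 0 ≤ C := by
    rw [hC]
    unfold Cs
    positivity
  rw [← hC] at hF
  have h2 : ∀ F ∈ E.powerset.erase ∅, |Q F| ≤ (1 + N) * (C * (F.card : ℝ) ^ (2 * t) * M) := by
    intro F hF0
    have hF := Finset.mem_of_mem_erase hF0
    have hF2 : F ≠ ∅ := Finset.ne_of_mem_erase hF0
    have hFs : F.card ≤ s := by
      have := Finset.card_le_card (Finset.mem_powerset.1 hF)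
      omega
    have hF1 : (1 : ℝ) ≤ F.card := by
      exact_mod_cast Finset.card_pos.2 (Finset.nonempty_iff_ne_empty.2 hF2)
    have hYF := yp_pm hk hsym hS.hρ.le t (gs g (D ∪ F)) (K ^ s) (one_le_pow₀ hK)
      (gs_nonneg hk (D ∪ F)) (gs_le hk (hcard F hF))
    have e1 := psd_main2 hk hYF hg0 hS.hΛσ hS.hρ (by positivity) η hS.hη hS.hη0 φ hφc
    have e2 : MM (yp ρ g (gs g (D ∪ F))) φ ≤ C * (F.card : ℝ) ^ (2 * t) * M := by
      have hd : Disjoint D F := Finset.disjoint_of_subset_right (Finset.mem_powerset.1 hF) hDEd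
      have e3 : yp ρ g (gs g (D ∪ F)) = fun S => yp ρ g (gs g D) S * pq (gs g F) S := by
        funext S
        unfold yp pq
        have : ∀ x, gs g (D ∪ F) x = gs g D x * gs g F x := by
          intro x
          unfold gs
          rw [Finset.prod_union hd]
        simp_rw [this]
        rw [Finset.prod_mul_distrib]
        ring
      rw [e3, hM]
      have e4 := MM_weight hYD hS.hρ (by positivity) (gs g F) (gs_nonneg hk F) (K ^ s)
        (K ^ s * F.card * σ) ((F.card : ℝ) ^ 2 * m) (one_le_pow₀ hK) (gs_le hk hFs)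
        (one_le_mul_of_one_le_of_one_le (one_le_pow₀ hF1) hm) (by
          have := mul_le_mul_of_nonneg_left hτ (by positivity : (0 : ℝ) ≤ (F.card : ℝ) ^ 2)
          refine le_trans (le_of_eq ?_) this
          ring) (gs_row3 hk hsym hFs) φ hφc
      refine e4.trans (le_of_eq ?_)
      rw [hC]
      unfold Cs
      rw [mul_pow, ← pow_mul]
      ring
    have e4 := MM_nonneg hYF φ
    have e5 : ∑ S, ∑ T, φ S * φ T * yp ρ g (gs g (D ∪ F)) (S ∪ T) = Q F := by rw [hQ]
    rw [e5] at e1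
    have e6 : |Q F| ≤ (1 + N) * MM (yp ρ g (gs g (D ∪ F))) φ := by
      have e7 := mul_le_mul_of_nonneg_right hN e4
      have e8 : |Q F| ≤ |Q F - MM (yp ρ g (gs g (D ∪ F))) φ| + MM (yp ρ g (gs g (D ∪ F))) φ := by
        have := abs_add_le (Q F - MM (yp ρ g (gs g (D ∪ F))) φ) (MM (yp ρ g (gs g (D ∪ F))) φ)
        rw [sub_add_cancel, abs_of_nonneg e4] at this
        exact this
      linarith
    exact e6.trans (mul_le_mul_of_nonneg_left e2 (by linarith))
  have h3 : 1 / 2 * M ≤ Q ∅ := by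
    have hYa := yp_pm hk hsym hS.hρ.le t (gs g D) (K ^ a) (one_le_pow₀ hK) (gs_nonneg hk D)
      (gs_le hk hD)
    have e0 := psd_main2 hk hYa hg0 hS.hΛσ hS.hρ (by positivity) η hS.hη hS.hη0 φ hφc
    have e1 : |∑ S, ∑ T, φ S * φ T * yp ρ g (gs g D) (S ∪ T) - M| ≤ 1 / 2 * M := by
      rw [← hM] at e0
      exact e0.trans (mul_le_mul_of_nonneg_right hS.hη1 hM0)
    have e2 : Q ∅ = ∑ S, ∑ T, φ S * φ T * yp ρ g (gs g D) (S ∪ T) := by
      rw [hQ]
      simp only [Finset.union_empty]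
    rw [e2]
    linarith [(abs_le.1 e1).1]
  have hyD := yy_nonneg hS.hρ.le g D
  have h4 : ∀ F ∈ E.powerset.erase ∅, |(-1) ^ F.card * (yy ρ g (D ∪ F) * Q F)| ≤
      yy ρ g D * M * ((1 + N) * C) * ((K ^ s * ρ) ^ F.card * (F.card : ℝ) ^ (2 * t)) := by
    intro F hF
    have hF1 := Finset.mem_of_mem_erase hF
    have hd : Disjoint D F := Finset.disjoint_of_subset_right (Finset.mem_powerset.1 hF1) hDEd
    have e1 : yy ρ g (D ∪ F) ≤ yy ρ g D * (K ^ s * ρ) ^ F.card := by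
      unfold yy
      have e2 := pr_sub3 hk hsym hd (hcard F hF1)
      rw [Finset.card_union_of_disjoint hd, pow_add]
      have e4 : 0 ≤ ρ ^ D.card := pow_nonneg hS.hρ.le _
      have e6 : 0 ≤ ρ ^ F.card := pow_nonneg hS.hρ.le _
      calc ρ ^ D.card * ρ ^ F.card * pr g (D ∪ F)
          ≤ ρ ^ D.card * ρ ^ F.card * ((K ^ s) ^ F.card * pr g D) :=
            mul_le_mul_of_nonneg_left e2 (mul_nonneg e4 e6)
        _ = _ := by
            rw [mul_pow]
            ring
    rw [abs_mul, abs_pow, abs_neg, abs_one, one_pow, one_mul, abs_mul,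
      abs_of_nonneg (yy_nonneg hS.hρ.le g _)]
    have e6 := hS.hρ.le
    calc yy ρ g (D ∪ F) * |Q F| ≤ yy ρ g D * (K ^ s * ρ) ^ F.card *
          ((1 + N) * (C * (F.card : ℝ) ^ (2 * t) * M)) :=
          mul_le_mul e1 (h2 F hF) (abs_nonneg _) (by
            have := pow_nonneg hK0 s
            positivity)
      _ = _ := by ring
  have h5 : ∑ F ∈ E.powerset, (-1) ^ F.card * (yy ρ g (D ∪ F) * Q F) =
      yy ρ g D * Q ∅ + ∑ F ∈ E.powerset.erase ∅, (-1) ^ F.card * (yy ρ g (D ∪ F) * Q F) := by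
    rw [← Finset.add_sum_erase _ _ (Finset.empty_mem_powerset E)]
    simp
  have h6 : |∑ F ∈ E.powerset.erase ∅, (-1) ^ F.card * (yy ρ g (D ∪ F) * Q F)| ≤
      yy ρ g D * (1 / 2 * M) := by
    refine (Finset.abs_sum_le_sum_abs _ _).trans ((Finset.sum_le_sum h4).trans ?_)
    rw [← Finset.mul_sum]
    have e1 := sum_subsets E t b hE (mul_nonneg (pow_nonneg hK0 s) hS.hρ.le) hs
    have e7 : 0 ≤ yy ρ g D * M := mul_nonneg hyD hM0
    calc yy ρ g D * M * ((1 + N) * C) *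
        ∑ F ∈ E.powerset.erase ∅, (K ^ s * ρ) ^ F.card * (F.card : ℝ) ^ (2 * t)
        ≤ yy ρ g D * M * ((1 + N) * C) *
          ((2 * t) ^ (2 * t) * (2 * (b * (3 * (K ^ s * ρ))))) :=
          mul_le_mul_of_nonneg_left e1 (by positivity)
      _ = 1 / 2 * (yy ρ g D * M) * (2 * ((1 + N) * C) *
          ((2 * t) ^ (2 * t) * (2 * (b * (3 * (K ^ s * ρ)))))) := by ring
      _ ≤ 1 / 2 * (yy ρ g D * M) * 1 := mul_le_mul_of_nonneg_left hF (by positivity)
      _ = yy ρ g D * (1 / 2 * M) := by ring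
  rw [h5]
  have h7 := mul_le_mul_of_nonneg_left h3 hyD
  linarith [(abs_le.1 h6).1]

end

/-- the bound for the number of the conflicts -/
noncomputable def Mb (K E : ℝ) (s b t : ℕ) : ℝ :=
  12 * b * K ^ s * E * (1 + (1 + K ^ (t ^ 2) * (K ^ s) ^ t) * Cs K ((K ^ s) ^ 2 * (5 * E)) s t *
    (2 * t) ^ (2 * t))

end Pool.Agent.H2xRK
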