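import Mathlib
import Pool.Agent.H2xRK.Abs
import Pool.Agent.H2xRK.Cond4

/-!
H2xRK (helper2, MP_b5f63d_co): the product ansatz for a kernel close to `1`.
-/

set_option autoImplicit false
set_option linter.unusedSectionVars false

namespace Pool.Agent.H2xRK

open Finset Pool.Agent.Y570 Pool.Agent.Y570.LS Pool.Agent.H2xSX Pool.Agent.H2xSR

variable {X : Type} [Fintype X] [DecidableEq X]

lemma one_add_pow_le' {h : ℝ} (h0 : 0 ≤ h) (m : ℕ) (hm : (m : ℝ) * h ≤ 1 / 2) :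
    (1 + h) ^ m ≤ 2 := by
  have h1 : (1 + h) ^ m ≤ Real.exp h ^ m := by
    refine pow_le_pow_left₀ (by linarith) ?_ m
    linarith [Real.add_one_le_exp h]
  rw [← Real.exp_nat_mul] at h1
  have h2 : Real.exp (m * h) ≤ Real.exp (1 / 2) := Real.exp_le_exp.2 hm
  have h3 : Real.exp (1 / 2) ≤ 2 := by
    have h4 : Real.exp (1 / 2) ^ 2 = Real.exp 1 := by
      rw [← Real.exp_nat_mul]
      norm_num
    have h5 := Real.exp_one_lt_d9
    have h6 := Real.exp_pos (1 / 2 : ℝ)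
    nlinarith
  linarith

/-- **The product ansatz.** -/
theorem eng {k : X → X → ℝ} {s₀ Λ V γ θ c : ℝ} {n a b t : ℕ} (hk : KK k (1 + s₀) Λ √(5 * V))
    (hsym : ∀ x y, k x y = k y x) (hk0 : ∀ x, k x x = 0) (hV0 : 0 < V) (hs0 : 0 ≤ s₀)
    (hr : ((a + 2 * t : ℕ) : ℝ) * s₀ ≤ 1 / 2) (hΛκ : Λ ≤ 5 * V) (hγ0 : 0 ≤ γ) (hθ0 : 0 < θ)
    (hx1' : Λ / V * Real.exp (γ * n) ≤ 3 * Real.exp (-(n * θ)))
    (hMV : Mb (1 + s₀) (Real.exp (γ * n / t)) (a + b + 4 * t) (b + 2 * t) t ≤ V)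
    (ht : 1 ≤ t) (E1 : (3 : ℝ) ≤ n)
    (hcd : c ≤ min 1 (θ / (2 * (Real.log 320 + 6)))) (htc : (t : ℝ) * Real.log n ≤ c * n)
    (E6 : 72 ≤ Real.exp (n * (θ / 2))) {R : X → X → Prop} (hR : ∀ x y, R x y → k x y = 0) :
    ∃ y, GC a b t R y ∧ ∀ x, y {x} = Real.exp (γ * n / t) / V := by
  have hn0 : (0 : ℝ) < n := by linarith
  have hl320 : 0 ≤ Real.log 320 := Real.log_nonneg (by norm_num)
  obtain ⟨A, hAd⟩ : ∃ A : ℝ, A = Real.log 320 + 6 := ⟨_, rfl⟩
  have hA0 : 0 < A := by linarith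
  rw [← hAd] at hcd
  have hc1 : c ≤ 1 := hcd.trans (min_le_left _ _)
  have hcA : c ≤ θ / (2 * A) := hcd.trans (min_le_right _ _)
  have hlog1 : 1 ≤ Real.log n := by
    rw [Real.le_log_iff_exp_le hn0]
    linarith [Real.exp_one_lt_d9]
  have ht1 : (1 : ℝ) ≤ t := by exact_mod_cast ht
  have htn : (t : ℝ) ≤ n := by
    have b1 : (t : ℝ) * 1 ≤ t * Real.log n := mul_le_mul_of_nonneg_left hlog1 (by linarith)
    have b2 : c * n ≤ 1 * n := mul_le_mul_of_nonneg_right hc1 hn0.le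
    linarith
  obtain ⟨r, hrd⟩ : ∃ r : ℕ, r = a + 2 * t := ⟨_, rfl⟩
  have htr : t ≤ r := by omega
  rw [← hrd] at hr
  have hKr : (1 + s₀) ^ r ≤ 2 := one_add_pow_le' hs0 r hr
  have ht0 : (0 : ℝ) < t := by exact_mod_cast ht
  obtain ⟨E, hE⟩ : ∃ E : ℝ, E = Real.exp (γ * n / t) := ⟨_, rfl⟩
  rw [← hE] at hMV ⊢
  have hE1 : 1 ≤ E := by
    rw [hE]
    exact Real.one_le_exp (by positivity)
  have hE0 : 0 < E := by linarith
  have hEt : E ^ t = Real.exp (γ * n) := by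
    rw [hE, ← Real.exp_nat_mul]
    congr 1
    field_simp
  obtain ⟨Ψ, hΨ⟩ : ∃ Ψ : ℝ, Ψ = 320 ^ t * (2 * (t : ℝ) + 1) ^ (3 * t) := ⟨_, rfl⟩
  have hΨ0 : 0 < Ψ := by rw [hΨ]; positivity
  have hΨ1 : Ψ ≤ Real.exp (n * (θ / 2)) := by
    have b1 : Ψ = Real.exp (t * (Real.log 320 + 3 * Real.log (2 * t + 1))) := by
      rw [hΨ, mul_add, Real.exp_add, mul_comm (t : ℝ) (Real.log 320), Real.exp_mul,
        Real.exp_log (by norm_num), Real.rpow_natCast]
      congr 1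
      rw [show (t : ℝ) * (3 * Real.log (2 * t + 1)) = Real.log (2 * t + 1) * ((3 * t : ℕ) : ℝ) by
        push_cast; ring, Real.exp_mul, Real.exp_log (by positivity), Real.rpow_natCast]
    rw [b1, Real.exp_le_exp]
    have b2 : Real.log (2 * t + 1) ≤ 2 * Real.log n := by
      have : 2 * Real.log n = Real.log ((n : ℝ) ^ 2) := by
        rw [Real.log_pow]
        push_cast
        ring
      rw [this]
      refine Real.log_le_log (by positivity) ?_
      have e1 : (3 : ℝ) * n ≤ n * n := mul_le_mul_of_nonneg_right E1 hn0.le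
      rw [pow_two]
      linarith
    have b3 : Real.log 320 ≤ Real.log 320 * Real.log n := le_mul_of_one_le_right hl320 hlog1
    calc (t : ℝ) * (Real.log 320 + 3 * Real.log (2 * t + 1))
        ≤ t * (Real.log 320 * Real.log n + 3 * (2 * Real.log n)) := by gcongr
      _ = A * (t * Real.log n) := by
          rw [hAd]
          ring
      _ ≤ A * (c * n) := mul_le_mul_of_nonneg_left htc hA0.le
      _ ≤ A * (θ / (2 * A) * n) := by gcongr
      _ = n * (θ / 2) := by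
          field_simp
  have hx1 : Λ / V * E ^ t ≤ 3 * Real.exp (-(n * θ)) := by
    rw [hEt]
    exact hx1'
  have hΛ0 : 0 ≤ Λ := hk.hΛ
  have h2t1 : (1 : ℝ) ≤ 2 * t + 1 := by linarith
  have htt : (t : ℝ) ≤ (2 * t + 1) ^ t :=
    (by linarith : (t : ℝ) ≤ 2 * t + 1).trans (le_self_pow₀ h2t1 (by omega))
  have htt2 : (t : ℝ) ^ t ≤ (2 * t + 1) ^ t := pow_le_pow_left₀ (by linarith) (by linarith) t
  have hexp0 : Real.exp (n * (θ / 2)) * Real.exp (-(n * θ)) = Real.exp (-(n * (θ / 2))) := by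
    rw [← Real.exp_add]
    congr 1
    ring
  have hE7 : 72 * Real.exp (-(n * (θ / 2))) ≤ 1 := by
    have b1 : Real.exp (n * (θ / 2)) * Real.exp (-(n * (θ / 2))) = 1 := by
      rw [← Real.exp_add, add_neg_cancel, Real.exp_zero]
    have b3 := mul_le_mul_of_nonneg_right E6 (Real.exp_pos (-(n * (θ / 2)))).le
    linarith
  obtain ⟨η, hη⟩ : ∃ η : ℝ, η = (2 * (t : ℝ) + 1) ^ t * (t : ℝ) ^ t * (5 ^ t * (Λ / V * E ^ t)) :=
    ⟨_, rfl⟩
  have hη0 : 0 ≤ η := by rw [hη]; positivity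
  have hA : η * t * (2 ^ t * 4 ^ t) ≤ 1 / 2 := by
    have b1 : (2 * (t : ℝ) + 1) ^ t * (t : ℝ) ^ t * 5 ^ t * t * (2 ^ t * 4 ^ t) ≤ Ψ := by
      rw [hΨ]
      calc (2 * (t : ℝ) + 1) ^ t * (t : ℝ) ^ t * 5 ^ t * t * (2 ^ t * 4 ^ t)
          ≤ (2 * (t : ℝ) + 1) ^ t * (2 * (t : ℝ) + 1) ^ t * 5 ^ t * (2 * (t : ℝ) + 1) ^ t *
            (2 ^ t * 4 ^ t) := by gcongr
        _ = 40 ^ t * ((2 * (t : ℝ) + 1) ^ (3 * t)) := by
            rw [show (40 : ℝ) = 5 * (2 * 4) by norm_num, mul_pow, mul_pow,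
              show 3 * t = t + t + t by ring, pow_add, pow_add]
            ring
        _ ≤ 320 ^ t * (2 * (t : ℝ) + 1) ^ (3 * t) := by
            refine mul_le_mul_of_nonneg_right (pow_le_pow_left₀ (by norm_num) (by norm_num) t)
              (by positivity)
    have b2 : (2 * (t : ℝ) + 1) ^ t * (t : ℝ) ^ t * 5 ^ t * t * (2 ^ t * 4 ^ t) ≤
        Real.exp (n * (θ / 2)) := b1.trans hΨ1
    have b3 : 0 ≤ Λ / V * E ^ t := by positivity
    rw [hη]
    calc ((2 * (t : ℝ) + 1) ^ t * (t : ℝ) ^ t * (5 ^ t * (Λ / V * E ^ t))) * t * (2 ^ t * 4 ^ t)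
        = ((2 * (t : ℝ) + 1) ^ t * (t : ℝ) ^ t * 5 ^ t * t * (2 ^ t * 4 ^ t)) *
          (Λ / V * E ^ t) := by ring
      _ ≤ Real.exp (n * (θ / 2)) * (3 * Real.exp (-(n * θ))) :=
          mul_le_mul b2 hx1 b3 (Real.exp_pos _).le
      _ = 3 * (Real.exp (n * (θ / 2)) * Real.exp (-(n * θ))) := by ring
      _ ≤ 1 / 2 := by
          rw [hexp0]
          linarith [Real.exp_pos (-(n * (θ / 2)))]
  have hSml := sml3_of (K := 1 + s₀) (b := 0) (s := r) (r := r) (by linarith) hKr le_rfl htr ht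
    hV0 hE1 (by norm_num : (1 : ℝ) ≤ 5) hΛ0 hΛκ (by simp) (by rw [← hη]; exact hA) (by simp)
  rw [← hη] at hSml
  -- the excluded points
  obtain ⟨s, hs⟩ : ∃ s : ℕ, s = a + b + 4 * t := ⟨_, rfl⟩
  obtain ⟨b', hb'⟩ : ∃ b' : ℕ, b' = b + 2 * t := ⟨_, rfl⟩
  rw [← hs, ← hb'] at hMV
  obtain ⟨K, hK⟩ : ∃ K : ℝ, K = 1 + s₀ := ⟨_, rfl⟩
  rw [← hK] at hk hSml hMV
  have hK1 : 1 ≤ K := by rw [hK]; linarith
  have hK0 : 0 < K := by linarith
  obtain ⟨N, hN⟩ : ∃ N : ℝ, N = K ^ (t ^ 2) * (K ^ s) ^ t := ⟨_, rfl⟩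
  have hN0 : 0 < N := by rw [hN]; positivity
  obtain ⟨m, hm⟩ : ∃ m : ℝ, m = (K ^ s) ^ 2 * (5 * E) := ⟨_, rfl⟩
  have hm1 : 1 ≤ m := by
    rw [hm]
    refine one_le_mul_of_one_le_of_one_le (one_le_pow₀ (one_le_pow₀ hK1)) (by linarith)
  obtain ⟨C, hC⟩ : ∃ C : ℝ, C = Cs K m s t := ⟨_, rfl⟩
  have hC0 : 0 ≤ C := by
    rw [hC]
    unfold Cs
    positivity
  obtain ⟨W, hW⟩ : ∃ W : ℝ, W = (1 + N) * C * (2 * t) ^ (2 * t) := ⟨_, rfl⟩
  have hW0 : 0 ≤ W := by rw [hW]; positivity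
  have hMV' : 12 * b' * K ^ s * E * (1 + W) ≤ V := by
    refine le_trans (le_of_eq ?_) hMV
    unfold Mb
    rw [hW, hC, hN, hm]
  obtain ⟨β, hβ⟩ : ∃ β : ℝ, β = b' * K ^ s * E := ⟨_, rfl⟩
  have hβ0 : 0 ≤ β := by rw [hβ]; positivity
  have hβV : 12 * β * (1 + W) ≤ V := by
    refine le_trans (le_of_eq ?_) hMV'
    rw [hβ]
    ring
  have hcond := psd_cond4 (m := m) (N := N) (s := s) (b := b') hk hsym hk0 hSml (by omega) hm1 (by
      rw [mul_pow, Real.sq_sqrt (by positivity), hm]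
      refine le_of_eq ?_
      field_simp) (by
      have e1 : (b' : ℝ) * (3 * (K ^ s * (E / V))) = 3 * β / V := by
        rw [hβ]
        ring
      rw [e1, div_le_iff₀ hV0]
      nlinarith) (by
      rw [← hN]
      have e1 : η * t * 2 ^ t ≤ 1 := by
        have e2 : η * t * 2 ^ t ≤ η * t * (2 ^ t * 4 ^ t) := by
          refine mul_le_mul_of_nonneg_left ?_ (by positivity)
          exact le_mul_of_one_le_right (by positivity) (one_le_pow₀ (by norm_num))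
        linarith
      calc η * t * (2 ^ t * N) = η * t * 2 ^ t * N := by ring
        _ ≤ 1 * N := mul_le_mul_of_nonneg_right e1 hN0.le
        _ = N := one_mul N) (by
      rw [← hC]
      have e1 : 2 * ((1 + N) * C) * ((2 * t) ^ (2 * t) * (2 * (b' * (3 * (K ^ s * (E / V)))))) =
          12 * β * W / V := by
        rw [hβ, hW]
        ring
      rw [e1, div_le_one hV0]
      nlinarith)
  refine ⟨yy (E / V) k, ⟨?_, ?_, ?_, ?_⟩, fun x => ?_⟩
  · unfold yy pr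
    simp
  · intro S u hu v hv huv huv'
    unfold yy pr
    rw [Finset.prod_eq_zero (i := (u, v)), mul_zero]
    · exact Finset.mem_offDiag.2 ⟨hu, hv, huv⟩
    · rw [hR u v huv', Real.sqrt_zero]
  · intro D F hD hF
    have h1 := hcond D F (by omega) (by omega) (by omega) (fun S => if S = ∅ then 1 else 0)
      (fun S hS => by
        rw [if_neg]
        intro h
        rw [h, Finset.card_empty] at hS
        omega)
    simpa using h1
  · intro D F hD hF f hf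
    exact hcond D F (by omega) (by omega) (by omega) f hf
  · unfold yy pr
    simp

end Pool.Agent.H2xRK
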