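import Mathlib
import Pool.Agent.Y570.LS.Step

/-!
H2xRK (helper2, MP_b5f63d_co): the spectral truncation of a symmetric matrix with few closed walks.
-/

set_option autoImplicit false
set_option linter.unusedSectionVars false

namespace Pool.Agent.H2xRK

open Matrix Pool.Agent.Y570.LS

section

variable {X : Type} [Fintype X] [DecidableEq X]

lemma exists_spec (A : Matrix X X ℝ) (hA : A.IsHermitian) : ∃ (U : Matrix X X ℝ) (lam : X → ℝ),
    Uᵀ * U = 1 ∧ U * Uᵀ = 1 ∧ A = U * diagonal lam * Uᵀ := by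
  have e : star (hA.eigenvectorUnitary : Matrix X X ℝ) = (hA.eigenvectorUnitary : Matrix X X ℝ)ᵀ := by
    rw [star_eq_conjTranspose, conjTranspose_eq_transpose_of_trivial]
  refine ⟨hA.eigenvectorUnitary, hA.eigenvalues, ?_, ?_, ?_⟩
  · rw [← e]
    exact Unitary.coe_star_mul_self hA.eigenvectorUnitary
  · rw [← e]
    exact Unitary.coe_mul_star_self hA.eigenvectorUnitary
  · have h := hA.spectral_theorem
    rw [Unitary.conjStarAlgAut_apply, ← e] at *
    simpa using h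

lemma ent (U : Matrix X X ℝ) (φ : X → ℝ) (x y : X) :
    (U * diagonal φ * Uᵀ) x y = ∑ i, φ i * (U x i * U y i) := by
  rw [mul_apply]
  refine Finset.sum_congr rfl fun i _ => ?_
  rw [mul_diagonal, transpose_apply]
  ring

lemma pow_spec {U : Matrix X X ℝ} (hU : Uᵀ * U = 1) (hU' : U * Uᵀ = 1) (lam : X → ℝ) (k : ℕ) :
    (U * diagonal lam * Uᵀ) ^ k = U * diagonal (fun i => lam i ^ k) * Uᵀ := by
  induction k with
  | zero =>
    simp only [pow_zero]
    rw [Matrix.diagonal_one, Matrix.mul_one, hU']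
  | succ k ih =>
    rw [pow_succ, ih]
    have : U * diagonal (fun i => lam i ^ k) * Uᵀ * (U * diagonal lam * Uᵀ) =
        U * (diagonal (fun i => lam i ^ k) * (Uᵀ * U) * diagonal lam) * Uᵀ := by
      simp only [Matrix.mul_assoc]
    rw [this, hU, Matrix.mul_one, diagonal_mul_diagonal]
    congr 3

/-- Parseval -/
lemma pars {U : Matrix X X ℝ} (hU : Uᵀ * U = 1) (φ : X → ℝ) (h : X → ℝ) :
    ∑ x, (∑ y, (U * diagonal φ * Uᵀ) x y * h y) ^ 2 = ∑ i, φ i ^ 2 * (∑ y, U y i * h y) ^ 2 := by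
  have h1 : ∀ x, ∑ y, (U * diagonal φ * Uᵀ) x y * h y = ∑ i, U x i * (φ i * ∑ y, U y i * h y) := by
    intro x
    simp_rw [ent, Finset.sum_mul, Finset.mul_sum]
    rw [Finset.sum_comm]
    refine Finset.sum_congr rfl fun i _ => Finset.sum_congr rfl fun y _ => ?_
    ring
  obtain ⟨w, hw⟩ : ∃ w : X → ℝ, w = fun i => φ i * ∑ y, U y i * h y := ⟨_, rfl⟩
  have h2 : ∀ x, ∑ y, (U * diagonal φ * Uᵀ) x y * h y = (U *ᵥ w) x := by
    intro x
    rw [h1, hw]
    rfl
  simp_rw [h2]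
  have h3 : ∑ x, (U *ᵥ w) x ^ 2 = (U *ᵥ w) ⬝ᵥ (U *ᵥ w) := by
    rw [dotProduct]
    refine Finset.sum_congr rfl fun x _ => ?_
    ring
  rw [h3, dotProduct_mulVec, vecMul_mulVec, hU]
  rw [vecMul_one, dotProduct]
  refine Finset.sum_congr rfl fun i _ => ?_
  rw [hw]
  ring

/-- **Spectral truncation.** -/
theorem trunc (A : Matrix X X ℝ) (hA : A.IsHermitian) {ϑ R β : ℝ} {m : ℕ} (hϑ : 0 < ϑ)
    (hm : Even m) (hm1 : 1 ≤ m) (h1 : ∀ x, ∑ y, A x y ^ 2 ≤ R) (h2 : ∀ x, (A ^ m) x x ≤ β) :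
    ∃ L : Matrix X X ℝ, (∀ x y, L x y = L y x) ∧ (∀ x y, |L x y| ≤ β / ϑ ^ (m - 1)) ∧
      (∀ x, ∑ y, L x y ^ 2 ≤ R) ∧
      ∀ h : X → ℝ, ∑ x, (∑ y, (A x y - L x y) * h y) ^ 2 ≤ ϑ ^ 2 * ∑ y, h y ^ 2 := by
  classical
  obtain ⟨U, lam, hU, hU', hAe⟩ := exists_spec A hA
  obtain ⟨φ, hφ⟩ : ∃ φ : X → ℝ, φ = fun i => if ϑ ≤ |lam i| then lam i else 0 := ⟨_, rfl⟩
  have hrow : ∀ (ψ : X → ℝ) (x : X), ∑ y, (U * diagonal ψ * Uᵀ) x y ^ 2 =
      ∑ i, ψ i ^ 2 * U x i ^ 2 := by
    intro ψ x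
    have e1 : ∑ y, (U * diagonal ψ * Uᵀ) x y ^ 2 =
        ((U * diagonal ψ * Uᵀ) * (U * diagonal ψ * Uᵀ)) x x := by
      rw [mul_apply]
      refine Finset.sum_congr rfl fun y _ => ?_
      have : (U * diagonal ψ * Uᵀ) y x = (U * diagonal ψ * Uᵀ) x y := by
        rw [ent, ent]
        refine Finset.sum_congr rfl fun i _ => ?_
        ring
      rw [this]
      ring
    rw [e1, ← pow_two, pow_spec hU hU', ent]
    refine Finset.sum_congr rfl fun i _ => ?_
    ring
  refine ⟨U * diagonal φ * Uᵀ, ?_, ?_, ?_, ?_⟩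
  · intro x y
    rw [ent, ent]
    refine Finset.sum_congr rfl fun i _ => ?_
    ring
  · intro x y
    have hdiag : ∀ x, ∑ i, lam i ^ m * U x i ^ 2 ≤ β := by
      intro x
      refine le_trans (le_of_eq ?_) (h2 x)
      rw [hAe, pow_spec hU hU', ent]
      refine Finset.sum_congr rfl fun i _ => ?_
      ring
    rw [ent, le_div_iff₀ (pow_pos hϑ _)]
    have e1 : ∀ i, |φ i| * ϑ ^ (m - 1) ≤ lam i ^ m := by
      intro i
      rw [hφ]
      simp only
      by_cases h : ϑ ≤ |lam i|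
      · rw [if_pos h]
        have e2 : lam i ^ m = |lam i| * |lam i| ^ (m - 1) := by
          rw [← pow_succ', show m - 1 + 1 = m by omega, hm.pow_abs]
        rw [e2]
        exact mul_le_mul_of_nonneg_left (pow_le_pow_left₀ hϑ.le h _) (abs_nonneg _)
      · rw [if_neg h, abs_zero, zero_mul]
        exact hm.pow_nonneg _
    calc |∑ i, φ i * (U x i * U y i)| * ϑ ^ (m - 1)
        ≤ (∑ i, |φ i * (U x i * U y i)|) * ϑ ^ (m - 1) :=
          mul_le_mul_of_nonneg_right (Finset.abs_sum_le_sum_abs _ _) (pow_pos hϑ _).le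
      _ = ∑ i, |φ i| * ϑ ^ (m - 1) * (|U x i| * |U y i|) := by
          rw [Finset.sum_mul]
          refine Finset.sum_congr rfl fun i _ => ?_
          rw [abs_mul, abs_mul]
          ring
      _ ≤ ∑ i, lam i ^ m * ((U x i ^ 2 + U y i ^ 2) / 2) := by
          refine Finset.sum_le_sum fun i _ => ?_
          refine mul_le_mul (e1 i) ?_ (by positivity) (hm.pow_nonneg _)
          have := sq_nonneg (|U x i| - |U y i|)
          rw [sub_sq, sq_abs, sq_abs] at this
          linarith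
      _ = ((∑ i, lam i ^ m * U x i ^ 2) + ∑ i, lam i ^ m * U y i ^ 2) / 2 := by
          rw [← Finset.sum_add_distrib, Finset.sum_div]
          refine Finset.sum_congr rfl fun i _ => ?_
          ring
      _ ≤ β := by
          have := hdiag x
          have := hdiag y
          linarith
  · intro x
    rw [hrow]
    refine le_trans ?_ (h1 x)
    rw [hAe, hrow]
    refine Finset.sum_le_sum fun i _ => mul_le_mul_of_nonneg_right ?_ (sq_nonneg _)
    rw [hφ]
    simp only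
    by_cases h : ϑ ≤ |lam i|
    · rw [if_pos h]
    · rw [if_neg h, zero_pow two_ne_zero]
      exact sq_nonneg _
  · intro h
    have e1 : ∀ x y, A x y - (U * diagonal φ * Uᵀ) x y =
        (U * diagonal (fun i => lam i - φ i) * Uᵀ) x y := by
      intro x y
      rw [hAe, ent, ent, ent, ← Finset.sum_sub_distrib]
      refine Finset.sum_congr rfl fun i _ => ?_
      ring
    simp_rw [e1]
    rw [pars hU]
    have e2 : ∑ i, (∑ y, U y i * h y) ^ 2 = ∑ y, h y ^ 2 := by
      have e3 : ∑ i, (∑ y, U y i * h y) ^ 2 = (Uᵀ *ᵥ h) ⬝ᵥ (Uᵀ *ᵥ h) := by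
        rw [dotProduct]
        refine Finset.sum_congr rfl fun i _ => ?_
        rw [sq]
        rfl
      rw [e3, dotProduct_mulVec, vecMul_mulVec, transpose_transpose, hU', vecMul_one, dotProduct]
      refine Finset.sum_congr rfl fun i _ => ?_
      ring
    rw [← e2, Finset.mul_sum]
    refine Finset.sum_le_sum fun i _ => mul_le_mul_of_nonneg_right ?_ (sq_nonneg _)
    rw [hφ]
    simp only
    by_cases h : ϑ ≤ |lam i|
    · rw [if_pos h, sub_self, zero_pow two_ne_zero]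
      exact sq_nonneg _
    · rw [if_neg h, sub_zero, ← sq_abs]
      exact pow_le_pow_left₀ (abs_nonneg _) (by linarith) 2

end

end Pool.Agent.H2xRK
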