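import Mathlib
import Pool.Agent.H2xRK.Spec

/-!
H2xRK (helper2, MP_b5f63d_co): the kernel of a conflict graph with few closed walks.
-/

set_option autoImplicit false
set_option linter.unusedSectionVars false

namespace Pool.Agent.H2xRK

open Matrix Pool.Agent.Y570.LS

section

variable {X : Type} [Fintype X] [DecidableEq X]

lemma mink (u v : X → ℝ) {p q : ℝ} (hp : 0 ≤ p) (hq : 0 ≤ q) (hu : ∑ x, u x ^ 2 ≤ p ^ 2)
    (hv : ∑ x, v x ^ 2 ≤ q ^ 2) : ∑ x, (u x + v x) ^ 2 ≤ (p + q) ^ 2 := by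
  have h1 := Finset.sum_mul_sq_le_sq_mul_sq Finset.univ u v
  have h2 : (∑ x, u x ^ 2) * ∑ x, v x ^ 2 ≤ p ^ 2 * q ^ 2 :=
    mul_le_mul hu hv (Finset.sum_nonneg fun _ _ => sq_nonneg _) (sq_nonneg _)
  have h3 : ∑ x, u x * v x ≤ p * q := by
    refine le_of_sq_le_sq ?_ (by positivity)
    calc (∑ x, u x * v x) ^ 2 ≤ _ := h1
      _ ≤ p ^ 2 * q ^ 2 := h2
      _ = (p * q) ^ 2 := by ring
  have h4 : ∑ x, (u x + v x) ^ 2 = ∑ x, u x ^ 2 + 2 * ∑ x, u x * v x + ∑ x, v x ^ 2 := by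
    rw [Finset.mul_sum, ← Finset.sum_add_distrib, ← Finset.sum_add_distrib]
    refine Finset.sum_congr rfl fun x _ => ?_
    ring
  rw [h4]
  nlinarith

/-- the Schur test -/
lemma schur (M : X → X → ℝ) {r : ℝ} (hr : 0 ≤ r) (h1 : ∀ x, ∑ y, |M x y| ≤ r)
    (h2 : ∀ y, ∑ x, |M x y| ≤ r) (h : X → ℝ) :
    ∑ x, (∑ y, M x y * h y) ^ 2 ≤ r ^ 2 * ∑ y, h y ^ 2 := by
  have h3 : ∀ x, (∑ y, M x y * h y) ^ 2 ≤ r * ∑ y, |M x y| * h y ^ 2 := by
    intro x
    have e1 : |∑ y, M x y * h y| ≤ ∑ y, √|M x y| * (√|M x y| * |h y|) := by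
      refine (Finset.abs_sum_le_sum_abs _ _).trans (le_of_eq ?_)
      refine Finset.sum_congr rfl fun y _ => ?_
      rw [abs_mul, ← mul_assoc, Real.mul_self_sqrt (abs_nonneg _)]
    have e2 := Finset.sum_mul_sq_le_sq_mul_sq Finset.univ (fun y => √|M x y|)
      (fun y => √|M x y| * |h y|)
    have e3 : ∑ y, √|M x y| ^ 2 = ∑ y, |M x y| :=
      Finset.sum_congr rfl fun y _ => Real.sq_sqrt (abs_nonneg _)
    have e4 : ∑ y, (√|M x y| * |h y|) ^ 2 = ∑ y, |M x y| * h y ^ 2 :=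
      Finset.sum_congr rfl fun y _ => by rw [mul_pow, Real.sq_sqrt (abs_nonneg _), sq_abs]
    rw [e3, e4] at e2
    calc (∑ y, M x y * h y) ^ 2 = |∑ y, M x y * h y| ^ 2 := (sq_abs _).symm
      _ ≤ (∑ y, √|M x y| * (√|M x y| * |h y|)) ^ 2 := pow_le_pow_left₀ (abs_nonneg _) e1 2
      _ ≤ _ := e2
      _ ≤ r * ∑ y, |M x y| * h y ^ 2 := mul_le_mul_of_nonneg_right (h1 x)
          (Finset.sum_nonneg fun y _ => by positivity)
  calc ∑ x, (∑ y, M x y * h y) ^ 2 ≤ ∑ x, r * ∑ y, |M x y| * h y ^ 2 :=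
        Finset.sum_le_sum fun x _ => h3 x
    _ = r * ∑ y, (∑ x, |M x y|) * h y ^ 2 := by
        rw [← Finset.mul_sum, Finset.sum_comm]
        simp_rw [Finset.sum_mul]
    _ ≤ r * ∑ y, r * h y ^ 2 := by
        refine mul_le_mul_of_nonneg_left ?_ hr
        exact Finset.sum_le_sum fun y _ => mul_le_mul_of_nonneg_right (h2 y) (sq_nonneg _)
    _ = r ^ 2 * ∑ y, h y ^ 2 := by
        rw [← Finset.mul_sum]
        ring

/-- **The kernel of a conflict graph.** -/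
theorem kern (A : Matrix X X ℝ) (hA : ∀ x y, A x y = A y x) {ϑ R β σ₀ : ℝ} {m : ℕ} (hϑ : 0 < ϑ)
    (hm : Even m) (hm1 : 1 ≤ m) (h01 : ∀ x y, A x y = 0 ∨ A x y = 1)
    (hrow : ∀ x, ∑ y, A x y ≤ R) (hw : ∀ x, (A ^ m) x x ≤ β) (hβ : β / ϑ ^ (m - 1) ≤ σ₀)
    (hσ₀0 : 0 ≤ σ₀) (hσ₀1 : σ₀ ≤ 1) (hR : 0 ≤ R) {Λ σ : ℝ} (hΛ : ϑ + σ₀ * R ≤ Λ) (hσ : 0 ≤ σ)
    (hσ2 : 2 * R ≤ σ ^ 2) :
    ∃ g : X → X → ℝ, KK g (1 + σ₀) Λ σ ∧ (∀ x y, g x y = g y x) ∧ ∀ x y, A x y = 1 → g x y = 0 := by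
  classical
  have hH : A.IsHermitian := by
    ext x y
    simp [conjTranspose_apply, hA x y]
  have hA2 : ∀ x y, A x y ^ 2 = A x y := by
    intro x y
    rcases h01 x y with h | h <;> rw [h] <;> norm_num
  have hA0 : ∀ x y, 0 ≤ A x y := by
    intro x y
    rcases h01 x y with h | h <;> rw [h] <;> norm_num
  obtain ⟨L, hL1, hL2, hL3, hL4⟩ := trunc A hH hϑ hm hm1 (fun x => by simpa only [hA2] using hrow x)
    hw
  have hLσ : ∀ x y, |L x y| ≤ σ₀ := fun x y => (hL2 x y).trans hβ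
  obtain ⟨g, hg⟩ : ∃ g : X → X → ℝ, g = fun x y => if A x y = 1 then 0 else 1 + L x y := ⟨_, rfl⟩
  have hg1 : ∀ x y, g x y - 1 = -(A x y - L x y) + -(L x y * A x y) := by
    intro x y
    rw [hg]
    simp only
    rcases h01 x y with h | h
    · rw [if_neg (by rw [h]; norm_num), h]
      ring
    · rw [if_pos h, h]
      ring
  have hsq : ∀ x y, (g x y - 1) ^ 2 ≤ A x y + L x y ^ 2 := by
    intro x y
    rw [hg1]
    rcases h01 x y with h | h
    · rw [h]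
      nlinarith
    · rw [h]
      have := sq_nonneg (L x y)
      nlinarith
  have hgs : ∀ x y, g x y = g y x := by
    intro x y
    rw [hg]
    simp only
    rw [hA x y, hL1 x y]
  have hr : ∀ x, ∑ y, (g x y - 1) ^ 2 ≤ σ ^ 2 := by
    intro x
    refine le_trans (Finset.sum_le_sum fun y _ => hsq x y) ?_
    rw [Finset.sum_add_distrib]
    have := hrow x
    have := hL3 x
    linarith
  refine ⟨g, ⟨by linarith, ?_, hσ, ?_, ?_, hr, ?_, ?_⟩, hgs, ?_⟩
  · have := mul_nonneg hσ₀0 hR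
    linarith
  · intro x y
    rw [hg]
    simp only
    split_ifs
    · exact le_rfl
    · have := (abs_le.1 (hLσ x y)).1
      linarith
  · intro x y
    rw [hg]
    simp only
    split_ifs
    · linarith
    · have := (abs_le.1 (hLσ x y)).2
      linarith
  · intro y
    have e : ∀ x, (g x y - 1) ^ 2 = (g y x - 1) ^ 2 := fun x => by rw [hgs x y]
    simp_rw [e]
    exact hr y
  · intro h
    obtain ⟨q, hq⟩ : ∃ q : ℝ, q = √(∑ y, h y ^ 2) := ⟨_, rfl⟩
    have hq0 : 0 ≤ q := by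
      rw [hq]
      exact Real.sqrt_nonneg _
    have hq2 : q ^ 2 = ∑ y, h y ^ 2 := by
      rw [hq, Real.sq_sqrt (Finset.sum_nonneg fun _ _ => sq_nonneg _)]
    have e1 : ∀ x, ∑ y, (g x y - 1) * h y =
        -(∑ y, (A x y - L x y) * h y) + -(∑ y, L x y * A x y * h y) := by
      intro x
      simp_rw [hg1]
      rw [← Finset.sum_neg_distrib, ← Finset.sum_neg_distrib, ← Finset.sum_add_distrib]
      refine Finset.sum_congr rfl fun y _ => ?_
      ring
    simp_rw [e1]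
    have e2 : ∀ x, ∑ y, |L x y * A x y| ≤ σ₀ * R := by
      intro x
      calc ∑ y, |L x y * A x y| ≤ ∑ y, σ₀ * A x y := by
            refine Finset.sum_le_sum fun y _ => ?_
            rw [abs_mul, abs_of_nonneg (hA0 x y)]
            exact mul_le_mul_of_nonneg_right (hLσ x y) (hA0 x y)
        _ = σ₀ * ∑ y, A x y := by rw [Finset.mul_sum]
        _ ≤ σ₀ * R := mul_le_mul_of_nonneg_left (hrow x) hσ₀0
    have e3 := schur (fun x y => L x y * A x y) (mul_nonneg hσ₀0 hR) e2 (fun y => by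
      have : ∀ x, |L x y * A x y| = |L y x * A y x| := fun x => by rw [hL1 x y, hA x y]
      simp_rw [this]
      exact e2 y) h
    have e4 := hL4 h
    rw [← hq2] at e3 e4
    have e5 := mink (fun x => -(∑ y, (A x y - L x y) * h y)) (fun x => -(∑ y, L x y * A x y * h y))
      (p := ϑ * q) (q := σ₀ * R * q) (by positivity) (by positivity) (by
        simp only [neg_sq]
        refine e4.trans (le_of_eq ?_)
        ring) (by
        simp only [neg_sq]
        refine e3.trans (le_of_eq ?_)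
        ring)
    refine e5.trans ?_
    rw [← hq2]
    have e6 : (ϑ * q + σ₀ * R * q) ^ 2 = (ϑ + σ₀ * R) ^ 2 * q ^ 2 := by ring
    rw [e6]
    exact mul_le_mul_of_nonneg_right (pow_le_pow_left₀ (by positivity) hΛ 2) (sq_nonneg _)
  · intro x y h
    rw [hg]
    simp only
    rw [if_pos h]

end

end Pool.Agent.H2xRK
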