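import Mathlib
import Pool.Agent.H2xRK.Gauss

/-!
H2xRK (helper2, MP_b5f63d_co): Gaussian bounds for the walks of the conflict graph of a grid in a
thin shell.
-/

set_option autoImplicit false
set_option linter.unusedSectionVars false

open MeasureTheory Metric

namespace Pool.Agent.H2xRK

variable {n : ℕ}

/-- the kernel (a Mehler kernel) -/
noncomputable def KQ (n : ℕ) (Δ q : ℝ) (x y : E n) : ℝ :=
  Real.exp (-((n : ℝ) / 2) * Real.log (1 - q ^ 2) -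
    n * Δ * ((1 + q ^ 2) * (‖x‖ ^ 2 + ‖y‖ ^ 2) - 4 * q * inner ℝ x y) / (1 - q ^ 2))

/-- a grid with cells -/
structure Gr (X : Finset (E n)) (F : Set (E n)) (δ B : ℝ) : Prop where
  meas : MeasurableSet F
  top : volume F ≠ ⊤
  pos : 0 < volume.real F
  δ0 : 0 ≤ δ
  δ1 : δ ≤ 1
  B0 : 0 ≤ B
  sub : F ⊆ closedBall 0 δ
  dis : ∀ x ∈ X, ∀ y ∈ X, x ≠ y → ∀ a ∈ F, ∀ b ∈ F, x + a ≠ y + b
  bd : ∀ x ∈ X, ‖x‖ ≤ B

variable {X : Finset (E n)} {F : Set (E n)} {δ B : ℝ}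

lemma KQ_pos (Δ q : ℝ) (x y : E n) : 0 < KQ n Δ q x y := Real.exp_pos _

lemma alg' {N q q' d d' s : ℝ} (P Q W : ℝ) (hN : 0 < N) (hd : d ≠ 0) (hd' : d' ≠ 0) (hs : s ≠ 0)
    (e1 : d = 1 - q ^ 2) (e2 : d' = 1 - q' ^ 2) (e3 : s = 1 - (q * q') ^ 2) :
    ((2 * N * q / d) ^ 2 * P + 2 * (2 * N * q / d * (2 * N * q' / d') * W) +
      (2 * N * q' / d') ^ 2 * Q) / (2 * N * s / (d * d')) -
      N * ((1 + q ^ 2) * P / d + (1 + q' ^ 2) * Q / d') =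
    -(N * ((1 + (q * q') ^ 2) * (P + Q) - 4 * (q * q') * W) / s) := by
  have h1 : ((2 * N * q / d) ^ 2 * P + 2 * (2 * N * q / d * (2 * N * q' / d') * W) +
      (2 * N * q' / d') ^ 2 * Q) / (2 * N * s / (d * d')) =
      N * (2 * q ^ 2 * d' * P / (d * s) + 4 * q * q' * W / s + 2 * q' ^ 2 * d * Q / (d' * s)) := by
    field_simp
    ring
  have h2 : 2 * q ^ 2 * d' * P / (d * s) - (1 + q ^ 2) * P / d = -((1 + (q * q') ^ 2) * P / s) := by
    have : 2 * q ^ 2 * d' * P - (1 + q ^ 2) * P * s = -((1 + (q * q') ^ 2) * P * d) := by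
      rw [e1, e2, e3]
      ring
    field_simp
    linarith
  have h3 : 2 * q' ^ 2 * d * Q / (d' * s) - (1 + q' ^ 2) * Q / d' =
      -((1 + (q * q') ^ 2) * Q / s) := by
    have : 2 * q' ^ 2 * d * Q - (1 + q' ^ 2) * Q * s = -((1 + (q * q') ^ 2) * Q * d') := by
      rw [e1, e2, e3]
      ring
    field_simp
    linarith
  rw [h1]
  have h4 : N * (2 * q ^ 2 * d' * P / (d * s) + 4 * q * q' * W / s + 2 * q' ^ 2 * d * Q / (d' * s)) -
      N * ((1 + q ^ 2) * P / d + (1 + q' ^ 2) * Q / d') =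
      N * ((2 * q ^ 2 * d' * P / (d * s) - (1 + q ^ 2) * P / d) +
        (2 * q' ^ 2 * d * Q / (d' * s) - (1 + q' ^ 2) * Q / d') + 4 * q * q' * W / s) := by ring
  rw [h4, h2, h3]
  ring

lemma alg {n Δ q q' : ℝ} (P Q W : ℝ) (hN : 0 < n * Δ) (hd : 1 - q ^ 2 ≠ 0)
    (hd' : 1 - q' ^ 2 ≠ 0) (hs : 1 - (q * q') ^ 2 ≠ 0) :
    ((2 * n * Δ * q / (1 - q ^ 2)) ^ 2 * P +
      2 * (2 * n * Δ * q / (1 - q ^ 2) * (2 * n * Δ * q' / (1 - q' ^ 2)) * W) +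
      (2 * n * Δ * q' / (1 - q' ^ 2)) ^ 2 * Q) /
        (2 * n * Δ * (1 - (q * q') ^ 2) / ((1 - q ^ 2) * (1 - q' ^ 2))) -
      n * Δ * ((1 + q ^ 2) * P / (1 - q ^ 2) + (1 + q' ^ 2) * Q / (1 - q' ^ 2)) =
    -(n * Δ * ((1 + (q * q') ^ 2) * (P + Q) - 4 * (q * q') * W) / (1 - (q * q') ^ 2)) := by
  have h := alg' P Q W hN hd hd' hs rfl rfl rfl
  rw [← h]
  ring_nf

/-- the composition of the kernels -/
theorem comp (hG : Gr X F δ B) (hn : 0 < n) {Δ q q' c ε : ℝ} (hΔ : 0 < Δ) (hq0 : 0 < q)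
    (hqc : q ≤ c) (hq0' : 0 < q') (hqc' : q' ≤ c) (hc : c < 1)
    (hε : n * (4 * Δ / (1 - c ^ 2) ^ 2) * ((4 * B + 1) * δ) ≤ ε) {x y : E n}
    (hx : ‖x‖ ≤ B) (hy : ‖y‖ ≤ B) :
    ∑ z ∈ X, KQ n Δ q x z * KQ n Δ q' z y ≤ (volume.real F)⁻¹ * Real.exp ε *
      (Real.pi / (2 * n * Δ)) ^ ((n : ℝ) / 2) * KQ n Δ (q * q') x y := by
  have hn0 : (0 : ℝ) < n := by exact_mod_cast hn
  have hq1 : q < 1 := lt_of_le_of_lt hqc hc
  have hq1' : q' < 1 := lt_of_le_of_lt hqc' hc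
  have hc0 : 0 < c := lt_of_lt_of_le hq0 hqc
  have hqq : q ^ 2 < 1 := pow_lt_one₀ hq0.le hq1 two_ne_zero
  have hqq' : q' ^ 2 < 1 := pow_lt_one₀ hq0'.le hq1' two_ne_zero
  have hcc : c ^ 2 < 1 := pow_lt_one₀ hc0.le hc two_ne_zero
  have hqc2 : q ^ 2 ≤ c ^ 2 := pow_le_pow_left₀ hq0.le hqc 2
  have hqc2' : q' ^ 2 ≤ c ^ 2 := pow_le_pow_left₀ hq0'.le hqc' 2
  have hd : 0 < 1 - q ^ 2 := by linarith
  have hd' : 0 < 1 - q' ^ 2 := by linarith
  have hdc : 0 < 1 - c ^ 2 := by linarith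
  have hdc1 : 1 - c ^ 2 ≤ 1 := by
    have := sq_nonneg c
    linarith
  have hs : 0 < 1 - (q * q') ^ 2 := by
    have h1 : q * q' < 1 := by nlinarith
    have h2 : 0 < q * q' := by positivity
    nlinarith
  have hs1 : 1 - (q * q') ^ 2 ≤ 1 := by
    have := sq_nonneg (q * q')
    linarith
  obtain ⟨a, ha⟩ : ∃ a : ℝ,
    a = 2 * n * Δ * (1 - (q * q') ^ 2) / ((1 - q ^ 2) * (1 - q' ^ 2)) := ⟨_, rfl⟩
  have ha0 : 0 < a := by rw [ha]; positivity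
  obtain ⟨k, hk⟩ : ∃ k : ℝ, k = 2 * n * Δ * q / (1 - q ^ 2) := ⟨_, rfl⟩
  have hk0 : 0 < k := by rw [hk]; positivity
  obtain ⟨k', hk'⟩ : ∃ k' : ℝ, k' = 2 * n * Δ * q' / (1 - q' ^ 2) := ⟨_, rfl⟩
  have hk0' : 0 < k' := by rw [hk']; positivity
  obtain ⟨p, hp⟩ : ∃ p : E n, p = k • x + k' • y := ⟨_, rfl⟩
  obtain ⟨K0, hK0⟩ : ∃ K0 : ℝ,
    K0 = -((n : ℝ) / 2) * (Real.log (1 - q ^ 2) + Real.log (1 - q' ^ 2)) -
    n * Δ * ((1 + q ^ 2) * ‖x‖ ^ 2 / (1 - q ^ 2) + (1 + q' ^ 2) * ‖y‖ ^ 2 / (1 - q' ^ 2)) :=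
    ⟨_, rfl⟩
  have e1 : ∀ z, KQ n Δ q x z * KQ n Δ q' z y =
      Real.exp K0 * Real.exp (-a * ‖z‖ ^ 2 + 2 * inner ℝ p z) := by
    intro z
    unfold KQ
    rw [← Real.exp_add, ← Real.exp_add, hp, inner_add_left, inner_smul_left, inner_smul_left,
      real_inner_comm y z, hK0, ha, hk, hk']
    congr 1
    simp only [conj_trivial]
    field_simp
    ring
  have h1 := grid_sum hG.meas hG.top hG.pos hG.sub hG.dis hG.bd ha0 p
  have hB0 := hG.B0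
  have hδ0 := hG.δ0
  have hosc : a * (2 * B * δ + δ ^ 2) + 2 * ‖p‖ * δ ≤ ε := by
    have a1 : a ≤ n * (4 * Δ / (1 - c ^ 2) ^ 2) := by
      rw [ha, ← mul_div_assoc, pow_two (1 - c ^ 2)]
      refine div_le_div₀ (by positivity) ?_ (by positivity) ?_
      · have : 2 * n * Δ * (1 - (q * q') ^ 2) ≤ 2 * n * Δ * 1 :=
          mul_le_mul_of_nonneg_left hs1 (by positivity)
        have : 0 < n * Δ := by positivity
        linarith
      · exact mul_le_mul (by linarith) (by linarith) hdc.le hd.le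
    have a0 : 2 * Δ / (1 - c ^ 2) ≤ 2 * Δ / (1 - c ^ 2) ^ 2 := by
      refine div_le_div₀ (by positivity) le_rfl (by positivity) ?_
      rw [pow_two]
      exact mul_le_of_le_one_left hdc.le hdc1
    have a2' : ∀ v : ℝ, 0 < v → v ≤ c →
        2 * n * Δ * v / (1 - v ^ 2) ≤ n * (2 * Δ / (1 - c ^ 2) ^ 2) := by
      intro v hv hvc
      have hv2 : v ^ 2 ≤ c ^ 2 := pow_le_pow_left₀ hv.le hvc 2
      have hv1 : v < 1 := lt_of_le_of_lt hvc hc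
      refine le_trans ?_ (mul_le_mul_of_nonneg_left a0 hn0.le)
      rw [← mul_div_assoc]
      refine div_le_div₀ (by positivity) ?_ hdc (by linarith)
      have : 2 * n * Δ * v ≤ 2 * n * Δ * 1 :=
        mul_le_mul_of_nonneg_left (by linarith) (by positivity)
      linarith
    have a2 : k ≤ n * (2 * Δ / (1 - c ^ 2) ^ 2) := by
      rw [hk]
      exact a2' q hq0 hqc
    have a2'' : k' ≤ n * (2 * Δ / (1 - c ^ 2) ^ 2) := by
      rw [hk']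
      exact a2' q' hq0' hqc'
    have a3 : ‖p‖ ≤ n * (2 * Δ / (1 - c ^ 2) ^ 2) * (2 * B) := by
      have b1 : ‖k • x‖ ≤ n * (2 * Δ / (1 - c ^ 2) ^ 2) * B := by
        rw [norm_smul, Real.norm_eq_abs, abs_of_pos hk0]
        exact mul_le_mul a2 hx (norm_nonneg _) (by positivity)
      have b2 : ‖k' • y‖ ≤ n * (2 * Δ / (1 - c ^ 2) ^ 2) * B := by
        rw [norm_smul, Real.norm_eq_abs, abs_of_pos hk0']
        exact mul_le_mul a2'' hy (norm_nonneg _) (by positivity)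
      rw [hp]
      refine (norm_add_le _ _).trans ?_
      linarith
    have a4 : 2 * B * δ + δ ^ 2 ≤ (2 * B + 1) * δ := by
      have : δ ^ 2 ≤ δ := by
        rw [pow_two]
        exact mul_le_of_le_one_left hδ0 hG.δ1
      linarith
    calc a * (2 * B * δ + δ ^ 2) + 2 * ‖p‖ * δ
        ≤ (n * (4 * Δ / (1 - c ^ 2) ^ 2)) * ((2 * B + 1) * δ) +
          2 * (n * (2 * Δ / (1 - c ^ 2) ^ 2) * (2 * B)) * δ := by
          refine add_le_add (mul_le_mul a1 a4 (by positivity) (by positivity)) ?_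
          refine mul_le_mul_of_nonneg_right ?_ hδ0
          exact mul_le_mul_of_nonneg_left a3 (by norm_num)
      _ = n * (4 * Δ / (1 - c ^ 2) ^ 2) * ((4 * B + 1) * δ) := by ring
      _ ≤ ε := hε
  have hpi := Real.pi_pos
  have e2 : (Real.pi / a) ^ ((n : ℝ) / 2) = (Real.pi / (2 * n * Δ)) ^ ((n : ℝ) / 2) *
      Real.exp ((n : ℝ) / 2 * (Real.log (1 - q ^ 2) + Real.log (1 - q' ^ 2) -
        Real.log (1 - (q * q') ^ 2))) := by
    have e3 : Real.pi / a = Real.pi / (2 * n * Δ) *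
        ((1 - q ^ 2) * (1 - q' ^ 2) / (1 - (q * q') ^ 2)) := by
      rw [ha]
      field_simp
    rw [e3, Real.mul_rpow (by positivity) (by positivity),
      Real.rpow_def_of_pos (show 0 < (1 - q ^ 2) * (1 - q' ^ 2) / (1 - (q * q') ^ 2) by positivity),
      Real.log_div (mul_pos hd hd').ne' hs.ne', Real.log_mul hd.ne' hd'.ne',
      mul_comm ((n : ℝ) / 2)]
  have e5 : Real.exp K0 * (Real.exp ((n : ℝ) / 2 * (Real.log (1 - q ^ 2) + Real.log (1 - q' ^ 2) -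
        Real.log (1 - (q * q') ^ 2))) * Real.exp (‖p‖ ^ 2 / a)) = KQ n Δ (q * q') x y := by
    unfold KQ
    rw [← Real.exp_add, ← Real.exp_add, hK0]
    congr 1
    have e6 : ‖p‖ ^ 2 = k ^ 2 * ‖x‖ ^ 2 + 2 * (k * k' * inner ℝ x y) + k' ^ 2 * ‖y‖ ^ 2 := by
      rw [hp, norm_add_sq_real, norm_smul, norm_smul, mul_pow, mul_pow, Real.norm_eq_abs,
        Real.norm_eq_abs, sq_abs, sq_abs, inner_smul_left, inner_smul_right]
      simp only [conj_trivial]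
      ring
    have e7 : ‖p‖ ^ 2 / a - n * Δ * ((1 + q ^ 2) * ‖x‖ ^ 2 / (1 - q ^ 2) +
        (1 + q' ^ 2) * ‖y‖ ^ 2 / (1 - q' ^ 2)) =
        -(n * Δ * ((1 + (q * q') ^ 2) * (‖x‖ ^ 2 + ‖y‖ ^ 2) - 4 * (q * q') * inner ℝ x y) /
          (1 - (q * q') ^ 2)) := by
      rw [e6, ha, hk, hk']
      exact alg (‖x‖ ^ 2) (‖y‖ ^ 2) (inner ℝ x y) (by positivity) hd.ne' hd'.ne' hs.ne'
    linarith
  simp_rw [e1]
  rw [← Finset.mul_sum]
  calc Real.exp K0 * ∑ z ∈ X, Real.exp (-a * ‖z‖ ^ 2 + 2 * inner ℝ p z)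
      ≤ Real.exp K0 * ((volume.real F)⁻¹ * Real.exp ε *
        ((Real.pi / a) ^ ((n : ℝ) / 2) * Real.exp (‖p‖ ^ 2 / a))) := by
        refine mul_le_mul_of_nonneg_left (h1.trans ?_) (Real.exp_pos _).le
        refine mul_le_mul_of_nonneg_right ?_ (by positivity)
        refine mul_le_mul_of_nonneg_left (Real.exp_le_exp.2 hosc) ?_
        exact inv_nonneg.2 hG.pos.le
    _ = (volume.real F)⁻¹ * Real.exp ε * (Real.pi / (2 * n * Δ)) ^ ((n : ℝ) / 2) *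
        (Real.exp K0 * (Real.exp ((n : ℝ) / 2 * (Real.log (1 - q ^ 2) + Real.log (1 - q' ^ 2) -
        Real.log (1 - (q * q') ^ 2))) * Real.exp (‖p‖ ^ 2 / a))) := by
        rw [e2]
        ring
    _ = _ := by rw [e5]

/-- **The walks.** -/
theorem walk (hG : Gr X F δ B) (hn : 0 < n) {Δ c ε C0 H : ℝ} (hΔ : 0 < Δ) (hc0 : 0 < c)
    (hc : c < 1) (hε : n * (4 * Δ / (1 - c ^ 2) ^ 2) * ((4 * B + 1) * δ) ≤ ε) (hC0 : 0 ≤ C0)
    (hH : H = (volume.real F)⁻¹ * Real.exp ε * (Real.pi / (2 * n * Δ)) ^ ((n : ℝ) / 2))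
    (A : Matrix X X ℝ) (hA0 : ∀ x y, 0 ≤ A x y)
    (hA : ∀ x y : X, A x y ≤ C0 * KQ n Δ c (x : E n) (y : E n)) (i : ℕ) :
    ∀ x y : X, 0 ≤ (A ^ (i + 1)) x y ∧
      (A ^ (i + 1)) x y ≤ (C0 * H) ^ (i + 1) / H * KQ n Δ (c ^ (i + 1)) (x : E n) (y : E n) := by
  have hn0 : (0 : ℝ) < n := by exact_mod_cast hn
  have hpi := Real.pi_pos
  have hf := inv_pos.2 hG.pos
  have hH0 : 0 < H := by
    rw [hH]
    have := Real.rpow_pos_of_pos (show 0 < Real.pi / (2 * n * Δ) by positivity) ((n : ℝ) / 2)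
    positivity
  induction i with
  | zero =>
    intro x y
    rw [zero_add, pow_one, pow_one, pow_one, mul_div_assoc, div_self hH0.ne', mul_one]
    exact ⟨hA0 x y, hA x y⟩
  | succ i ih =>
    intro x y
    rw [pow_succ A (i + 1), Matrix.mul_apply]
    refine ⟨Finset.sum_nonneg fun z _ => mul_nonneg (ih x z).1 (hA0 z y), ?_⟩
    have hci : c ^ (i + 1) ≤ c := pow_le_of_le_one hc0.le hc.le (by omega)
    have h1 := comp hG hn hΔ (pow_pos hc0 (i + 1)) hci hc0 le_rfl hc hε (hG.bd x x.2) (hG.bd y y.2)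
    rw [← hH, ← pow_succ c (i + 1)] at h1
    have h3 : ∑ z : X, KQ n Δ (c ^ (i + 1)) (x : E n) (z : E n) * KQ n Δ c (z : E n) y =
        ∑ z ∈ X, KQ n Δ (c ^ (i + 1)) (x : E n) z * KQ n Δ c z y :=
      Finset.sum_coe_sort X fun z => KQ n Δ (c ^ (i + 1)) (x : E n) z * KQ n Δ c z y
    obtain ⟨P, hP⟩ : ∃ P : ℝ, P = (C0 * H) ^ (i + 1) / H := ⟨_, rfl⟩
    have hP0 : 0 ≤ P := by rw [hP]; positivity
    rw [← hP] at ih
    calc ∑ z, (A ^ (i + 1)) x z * A z y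
        ≤ ∑ z : X, (P * KQ n Δ (c ^ (i + 1)) (x : E n) (z : E n)) *
          (C0 * KQ n Δ c (z : E n) y) := by
          refine Finset.sum_le_sum fun z _ => ?_
          exact mul_le_mul (ih x z).2 (hA z y) (hA0 z y)
            (mul_nonneg hP0 (KQ_pos _ _ _ _).le)
      _ = P * C0 * ∑ z : X, KQ n Δ (c ^ (i + 1)) (x : E n) (z : E n) *
          KQ n Δ c (z : E n) y := by
          rw [Finset.mul_sum]
          refine Finset.sum_congr rfl fun z _ => ?_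
          ring
      _ ≤ P * C0 * (H * KQ n Δ (c ^ (i + 1 + 1)) (x : E n) (y : E n)) := by
          rw [h3]
          exact mul_le_mul_of_nonneg_left h1 (by positivity)
      _ = _ := by
          rw [hP, pow_succ (C0 * H) (i + 1)]
          field_simp

/-- the domination of the conflicts -/
lemma dom {c : ℝ} (hc0 : 0 < c) (hc1 : c < 1) {x y : E n} (hx : 2 * (1 - c) * ‖x‖ ^ 2 ≤ 1)
    (hy : 2 * (1 - c) * ‖y‖ ^ 2 ≤ 1) (hd : dist x y < 1) :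
    1 ≤ Real.exp ((n : ℝ) / 2 + (n : ℝ) / 2 * Real.log (1 - c ^ 2)) * KQ n ((1 - c) / 2) c x y := by
  unfold KQ
  rw [← Real.exp_add, Real.one_le_exp_iff]
  have h1 : dist x y ^ 2 = ‖x‖ ^ 2 - 2 * inner ℝ x y + ‖y‖ ^ 2 := by
    rw [dist_eq_norm, norm_sub_sq_real]
  have h2 : dist x y ^ 2 < 1 := by
    have := dist_nonneg (x := x) (y := y)
    nlinarith
  rw [h1] at h2
  have hn0 : (0 : ℝ) ≤ n := Nat.cast_nonneg n
  have hcc : 0 < 1 - c ^ 2 := by nlinarith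
  have e1 : (n : ℝ) * ((1 - c) / 2) * ((1 + c ^ 2) * (‖x‖ ^ 2 + ‖y‖ ^ 2) - 4 * c * inner ℝ x y) /
      (1 - c ^ 2) = n * (((1 + c ^ 2) * (‖x‖ ^ 2 + ‖y‖ ^ 2) - 4 * c * inner ℝ x y) /
        (2 * (1 + c))) := by
    rw [show 1 - c ^ 2 = (1 - c) * (1 + c) by ring]
    have : 1 - c ≠ 0 := by linarith
    field_simp
  have e2 : ((1 + c ^ 2) * (‖x‖ ^ 2 + ‖y‖ ^ 2) - 4 * c * inner ℝ x y) / (2 * (1 + c)) ≤ 1 / 2 := by
    rw [div_le_iff₀ (by positivity)]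
    obtain ⟨p, hp⟩ : ∃ p : ℝ, p = ‖x‖ ^ 2 := ⟨_, rfl⟩
    obtain ⟨q, hq⟩ : ∃ q : ℝ, q = ‖y‖ ^ 2 := ⟨_, rfl⟩
    obtain ⟨w, hw⟩ : ∃ w : ℝ, w = inner ℝ x y := ⟨_, rfl⟩
    rw [← hp, ← hq, ← hw] at h2 ⊢
    rw [← hp] at hx
    rw [← hq] at hy
    have h3 : 2 * c * (p - 2 * w + q) ≤ 2 * c * 1 := mul_le_mul_of_nonneg_left h2.le (by positivity)
    have h4 : (1 - c) * (2 * (1 - c) * p) ≤ (1 - c) * 1 :=
      mul_le_mul_of_nonneg_left hx (by linarith)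
    have h5 : (1 - c) * (2 * (1 - c) * q) ≤ (1 - c) * 1 :=
      mul_le_mul_of_nonneg_left hy (by linarith)
    nlinarith
  rw [e1]
  have e3 := mul_le_mul_of_nonneg_left e2 hn0
  linarith

/-- the rows -/
lemma row (hG : Gr X F δ B) (hn : 0 < n) {c ε η H C0 : ℝ} (hc0 : 0 < c) (hc1 : c < 1)
    (hη : 0 ≤ η) (hε : n * ((4 * B + 1) * δ) ≤ ε)
    (hH : H = (volume.real F)⁻¹ * Real.exp ε * (Real.pi / (2 * n * ((1 - c) / 2))) ^ ((n : ℝ) / 2))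
    (hC : C0 = Real.exp ((n : ℝ) / 2 + (n : ℝ) / 2 * Real.log (1 - c ^ 2))) {x : E n}
    (hx : ‖x‖ ≤ B) (hx1 : 1 - η ≤ 2 * (1 - c) * ‖x‖ ^ 2)
    (hX : ∀ z ∈ X, 2 * (1 - c) * ‖z‖ ^ 2 ≤ 1) :
    ∑ z ∈ X, (if dist x z < 1 then (1 : ℝ) else 0) ≤ C0 * H * Real.exp (n * η / 2) := by
  have hn0 : (0 : ℝ) < n := by exact_mod_cast hn
  have hpi := Real.pi_pos
  have h1c : 0 < 1 - c := by linarith
  have h1c' : 0 < 1 + c := by linarith
  have hcc : 0 < 1 - c ^ 2 := by nlinarith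
  obtain ⟨a, ha⟩ : ∃ a : ℝ, a = n / (1 + c) := ⟨_, rfl⟩
  have ha0 : 0 < a := by rw [ha]; positivity
  obtain ⟨k, hk⟩ : ∃ k : ℝ, k = n * c / (1 + c) := ⟨_, rfl⟩
  have hk0 : 0 < k := by rw [hk]; positivity
  obtain ⟨K0, hK0⟩ : ∃ K0 : ℝ, K0 = n * ((1 + 2 * c) / (2 * (1 + c)) - c / (1 + c) * ‖x‖ ^ 2) :=
    ⟨_, rfl⟩
  have e1 : ∀ z ∈ X, (if dist x z < 1 then (1 : ℝ) else 0) ≤
      Real.exp K0 * Real.exp (-a * ‖z‖ ^ 2 + 2 * inner ℝ (k • x) z) := by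
    intro z hz
    split_ifs with hd
    · rw [← Real.exp_add, Real.one_le_exp_iff, inner_smul_left, hK0, ha, hk]
      simp only [conj_trivial]
      have h1 : dist x z ^ 2 = ‖x‖ ^ 2 - 2 * inner ℝ x z + ‖z‖ ^ 2 := by
        rw [dist_eq_norm, norm_sub_sq_real]
      have h2 : dist x z ^ 2 < 1 := by
        have := dist_nonneg (x := x) (y := z)
        nlinarith
      rw [h1] at h2
      have h3 := hX z hz
      have e2 : n * ((1 + 2 * c) / (2 * (1 + c)) - c / (1 + c) * ‖x‖ ^ 2) +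
          (-(n / (1 + c)) * ‖z‖ ^ 2 + 2 * (n * c / (1 + c) * inner ℝ x z)) =
          n * (((1 + 2 * c) - 2 * c * ‖x‖ ^ 2 - 2 * ‖z‖ ^ 2 + 4 * c * inner ℝ x z) /
            (2 * (1 + c))) := by
        field_simp
        ring
      rw [e2]
      refine mul_nonneg hn0.le (div_nonneg ?_ (by positivity))
      have h4 : 2 * c * (‖x‖ ^ 2 - 2 * inner ℝ x z + ‖z‖ ^ 2) ≤ 2 * c * 1 :=
        mul_le_mul_of_nonneg_left h2.le (by positivity)
      nlinarith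
    · positivity
  have hB0 := hG.B0
  have hδ0 := hG.δ0
  have h1 := grid_sum hG.meas hG.top hG.pos hG.sub hG.dis hG.bd ha0 (k • x)
  have hosc : a * (2 * B * δ + δ ^ 2) + 2 * ‖k • x‖ * δ ≤ ε := by
    have a1 : a ≤ n := by
      rw [ha]
      exact div_le_self hn0.le (by linarith)
    have a2 : k ≤ n := by
      rw [hk, div_le_iff₀ h1c']
      nlinarith
    have a3 : ‖k • x‖ ≤ n * B := by
      rw [norm_smul, Real.norm_eq_abs, abs_of_pos hk0]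
      exact mul_le_mul a2 hx (norm_nonneg _) hn0.le
    have a4 : 2 * B * δ + δ ^ 2 ≤ (2 * B + 1) * δ := by
      have : δ ^ 2 ≤ δ := by
        rw [pow_two]
        exact mul_le_of_le_one_left hδ0 hG.δ1
      linarith
    calc a * (2 * B * δ + δ ^ 2) + 2 * ‖k • x‖ * δ ≤ n * ((2 * B + 1) * δ) + 2 * (n * B) * δ := by
          refine add_le_add (mul_le_mul a1 a4 (by positivity) hn0.le) ?_
          refine mul_le_mul_of_nonneg_right ?_ hδ0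
          exact mul_le_mul_of_nonneg_left a3 (by norm_num)
      _ = n * ((4 * B + 1) * δ) := by ring
      _ ≤ ε := hε
  have e3 : (Real.pi / a) ^ ((n : ℝ) / 2) =
      (Real.pi / (2 * n * ((1 - c) / 2))) ^ ((n : ℝ) / 2) *
        Real.exp ((n : ℝ) / 2 * Real.log (1 - c ^ 2)) := by
    have e4 : Real.pi / a = Real.pi / (2 * n * ((1 - c) / 2)) * (1 - c ^ 2) := by
      rw [ha, show 1 - c ^ 2 = (1 - c) * (1 + c) by ring]
      field_simp
    rw [e4, Real.mul_rpow (by positivity) hcc.le, Real.rpow_def_of_pos hcc,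
      mul_comm ((n : ℝ) / 2)]
  have e5 : K0 + ‖k • x‖ ^ 2 / a ≤ n / 2 + n * η / 2 := by
    have e6 : ‖k • x‖ ^ 2 = k ^ 2 * ‖x‖ ^ 2 := by
      rw [norm_smul, mul_pow, Real.norm_eq_abs, sq_abs]
    rw [e6, hK0, ha, hk]
    have e7 : n * ((1 + 2 * c) / (2 * (1 + c)) - c / (1 + c) * ‖x‖ ^ 2) +
        (n * c / (1 + c)) ^ 2 * ‖x‖ ^ 2 / (n / (1 + c)) =
        n * (((1 + 2 * c) - c * (2 * (1 - c) * ‖x‖ ^ 2)) / (2 * (1 + c))) := by
      field_simp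
      ring
    rw [e7]
    have e8 : ((1 + 2 * c) - c * (2 * (1 - c) * ‖x‖ ^ 2)) / (2 * (1 + c)) ≤ 1 / 2 + η / 2 := by
      rw [div_le_iff₀ (by positivity)]
      have := mul_le_mul_of_nonneg_left hx1 hc0.le
      nlinarith
    have := mul_le_mul_of_nonneg_left e8 hn0.le
    linarith
  have hf := inv_pos.2 hG.pos
  have hg0 := Real.rpow_pos_of_pos (show 0 < Real.pi / (2 * n * ((1 - c) / 2)) by positivity)
    ((n : ℝ) / 2)
  calc ∑ z ∈ X, (if dist x z < 1 then (1 : ℝ) else 0)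
      ≤ ∑ z ∈ X, Real.exp K0 * Real.exp (-a * ‖z‖ ^ 2 + 2 * inner ℝ (k • x) z) :=
        Finset.sum_le_sum e1
    _ = Real.exp K0 * ∑ z ∈ X, Real.exp (-a * ‖z‖ ^ 2 + 2 * inner ℝ (k • x) z) := by
        rw [Finset.mul_sum]
    _ ≤ Real.exp K0 * ((volume.real F)⁻¹ * Real.exp ε *
        ((Real.pi / a) ^ ((n : ℝ) / 2) * Real.exp (‖k • x‖ ^ 2 / a))) := by
        refine mul_le_mul_of_nonneg_left (h1.trans ?_) (Real.exp_pos _).le
        refine mul_le_mul_of_nonneg_right ?_ (by positivity)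
        refine mul_le_mul_of_nonneg_left (Real.exp_le_exp.2 hosc) hf.le
    _ = Real.exp ((n : ℝ) / 2 * Real.log (1 - c ^ 2)) * H *
        Real.exp (K0 + ‖k • x‖ ^ 2 / a) := by
        rw [e3, hH, Real.exp_add]
        ring
    _ ≤ Real.exp ((n : ℝ) / 2 * Real.log (1 - c ^ 2)) * H * Real.exp (n / 2 + n * η / 2) := by
        refine mul_le_mul_of_nonneg_left (Real.exp_le_exp.2 e5) ?_
        rw [hH]
        positivity
    _ = C0 * H * Real.exp (n * η / 2) := by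
        rw [hC, Real.exp_add, Real.exp_add]
        ring

end Pool.Agent.H2xRK
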