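import Mathlib
import Pool.Agent.H2xRK.Walk
import Pool.Agent.H2xRK.Kern
import Pool.Agent.H85G.Ball
import Pool.Agent.Y509.KP.Grid

/-!
H2xRK (helper2, MP_b5f63d_co): the kernel on a grid in a thin shell.
-/

set_option autoImplicit false
set_option linter.unusedSectionVars false

open MeasureTheory Metric Filter Topology

namespace Pool.Agent.H2xRK

open Pool.Agent.Y570.LS (KK)

variable {n : ℕ}

/-- continuity at `0` -/
lemma ev {P Q : ℝ → ℝ} (hP : Continuous P) (hQ : Continuous Q) (h : P 0 < Q 0) :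
    ∀ᶠ x in 𝓝[>] (0 : ℝ), P x < Q x :=
  (hP.continuousAt.eventually_lt hQ.continuousAt h).filter_mono nhdsWithin_le_nhds

/-- the volume of the unit ball -/
noncomputable def V1 (n : ℕ) : ℝ := volume.real (ball (0 : E n) 1)

lemma V1_bb (hn : 0 < n) : Pool.Agent.H85G.bb n ≤ 3 * n * V1 n := Pool.Agent.H85G.le_vb hn

lemma V1_pos (hn : 0 < n) : 0 < V1 n := by
  have h1 := V1_bb hn
  have h2 := Pool.Agent.H85G.bb_pos hn
  have hn0 : (0 : ℝ) < n := by exact_mod_cast hn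
  have h3 : 0 < 3 * n * V1 n := lt_of_lt_of_le h2 h1
  exact (mul_pos_iff_of_pos_left (by positivity)).1 h3

lemma vol_ball {r : ℝ} (hr : 0 < r) : volume.real (ball (0 : E n) r) = r ^ n * V1 n := by
  unfold V1
  rw [measureReal_def, measureReal_def, Measure.addHaar_ball_of_pos volume 0 hr,
    ENNReal.toReal_mul, ENNReal.toReal_ofReal (by positivity), finrank_euclideanSpace_fin]

lemma vol_shell {a R : ℝ} (ha : 0 < a) (hR : a < R) :
    MeasurableSet {x : E n | a ≤ ‖x‖ ∧ ‖x‖ < R} ∧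
    Bornology.IsBounded {x : E n | a ≤ ‖x‖ ∧ ‖x‖ < R} ∧
    volume.real {x : E n | a ≤ ‖x‖ ∧ ‖x‖ < R} = (R ^ n - a ^ n) * V1 n := by
  have h1 : {x : E n | a ≤ ‖x‖ ∧ ‖x‖ < R} = Metric.ball 0 R \ Metric.ball 0 a := by
    ext x
    simp [and_comm]
  rw [h1]
  refine ⟨measurableSet_ball.diff measurableSet_ball, Metric.isBounded_ball.subset Set.sdiff_subset,
    ?_⟩
  rw [measureReal_sdiff (Metric.ball_subset_ball hR.le) measurableSet_ball
    measure_ball_lt_top.ne, vol_ball (ha.trans hR), vol_ball ha]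
  ring

lemma KQ_diag {c q η : ℝ} (hc : c < 1) (hq0 : 0 < q) (hq1 : q < 1) {x : E n}
    (hx : 1 - η ≤ 2 * (1 - c) * ‖x‖ ^ 2) :
    KQ n ((1 - c) / 2) q x x ≤ Real.exp (-((n : ℝ) / 2) * Real.log (1 - q ^ 2) -
      (n : ℝ) / 2 * ((1 - η) * ((1 - q) / (1 + q)))) := by
  unfold KQ
  rw [Real.exp_le_exp, real_inner_self_eq_norm_sq]
  have hn0 : (0 : ℝ) ≤ n := Nat.cast_nonneg n
  have h1 : (n : ℝ) * ((1 - c) / 2) * ((1 + q ^ 2) * (‖x‖ ^ 2 + ‖x‖ ^ 2) - 4 * q * ‖x‖ ^ 2) /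
      (1 - q ^ 2) = (n : ℝ) / 2 * ((2 * (1 - c) * ‖x‖ ^ 2) * ((1 - q) / (1 + q))) := by
    rw [show 1 - q ^ 2 = (1 - q) * (1 + q) by ring]
    have : 1 - q ≠ 0 := by linarith
    field_simp
    ring
  rw [h1]
  have h2 : 0 ≤ (1 - q) / (1 + q) := div_nonneg (by linarith) (by linarith)
  have h3 := mul_le_mul_of_nonneg_left (mul_le_mul_of_nonneg_right hx h2)
    (show 0 ≤ (n : ℝ) / 2 by positivity)
  linarith

/-- the exponent of the deviation of the kernel from `1` -/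
noncomputable def ex (n m : ℕ) (c g : ℝ) : ℝ :=
  n / 2 + n / 2 * Real.log (1 - c ^ 2) + g * n * (m - 1 : ℕ) -
    n / 2 * Real.log (1 - (c ^ m) ^ 2) -
    n / 2 * ((1 - 2 / n) * ((1 - c ^ m) / (1 + c ^ m)))

/-- **The kernel on the shell.** -/
theorem shell_kern {c : ℝ} (hc0 : 0 < c) (hc1 : c < 1) (hn : 2 ≤ n)
    (hn2 : 1 / (2 * (1 - c)) ≤ n) {m : ℕ} (hmE : Even m) (hm0 : m ≠ 0) {g s₀ M : ℝ}
    (hM : 0 ≤ M) (hs₀ : Real.exp (ex n m c g) ≤ s₀) (hs₁ : s₀ ≤ 1) :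
    ∃ (a₀ ρ R : ℝ) (X : Finset (E n)) (k : X → X → ℝ), 0 < a₀ ∧
      (ρ - a₀) ^ 2 + 2 * (1 - c) * ρ ^ 2 ≤ 1 ∧ (∀ x ∈ X, a₀ ≤ ‖x‖ ∧ ‖x‖ < ρ) ∧ 0 < R ∧ M ≤ R ∧
      KK k (1 + s₀) (Real.exp (-(g * n)) * R + s₀ * R) √(5 * R) ∧ (∀ x y, k x y = k y x) ∧
      (∀ x y : X, dist (x : E n) y < 1 → k x y = 0) ∧
      (1 / √(1 - c ^ 2)) ^ n * R ≤ 243 * n * X.card := by
  classical
  have hn0 : (0 : ℝ) < n := by
    have : 0 < n := by omega
    exact_mod_cast this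
  have hn2' : (2 : ℝ) ≤ n := by exact_mod_cast hn
  have hnpos : 0 < n := by omega
  have h1c : 0 < 1 - c := by linarith
  have hcc : 0 < 1 - c ^ 2 := by nlinarith
  have hpi := Real.pi_pos
  -- the radii
  obtain ⟨θ, hθ⟩ : ∃ θ : ℝ, θ = 1 - 1 / n := ⟨_, rfl⟩
  have hinv : 1 / (n : ℝ) ≤ 1 / 2 := one_div_le_one_div_of_le (by norm_num) hn2'
  have hinv0 : 0 < 1 / (n : ℝ) := by positivity
  have hθ0 : 0 < θ := by rw [hθ]; linarith
  have hθ1 : θ < 1 := by rw [hθ]; linarith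
  obtain ⟨u, hu⟩ : ∃ u : ℝ, u = √θ := ⟨_, rfl⟩
  have hu0 : 0 < u := by rw [hu]; exact Real.sqrt_pos.2 hθ0
  have hu2 : u ^ 2 = θ := by rw [hu, Real.sq_sqrt hθ0.le]
  have hu1 : u < 1 := by nlinarith
  have huθ : θ ≤ u := by nlinarith
  obtain ⟨ρ, hρ⟩ : ∃ ρ : ℝ, ρ = √(θ / (2 * (1 - c))) := ⟨_, rfl⟩
  have hρ0 : 0 < ρ := by rw [hρ]; exact Real.sqrt_pos.2 (by positivity)
  have hρ2 : ρ ^ 2 = θ / (2 * (1 - c)) := by rw [hρ, Real.sq_sqrt (by positivity)]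
  have hρθ : 2 * (1 - c) * ρ ^ 2 = θ := by
    rw [hρ2]
    field_simp
  obtain ⟨a₀, ha₀⟩ : ∃ a₀ : ℝ, a₀ = u * ρ := ⟨_, rfl⟩
  have ha0 : 0 < a₀ := by rw [ha₀]; positivity
  have haρ : a₀ < ρ := by
    rw [ha₀]
    exact mul_lt_of_lt_one_left hρ0 hu1
  have hρn : ρ ^ 2 ≤ n := by
    refine le_trans ?_ hn2
    rw [hρ2]
    exact div_le_div_of_nonneg_right hθ1.le (by positivity)
  have hgeo : (ρ - a₀) ^ 2 + 2 * (1 - c) * ρ ^ 2 ≤ 1 := by
    have e1 : (ρ - a₀) ^ 2 = ρ ^ 2 * (1 - u) ^ 2 := by rw [ha₀]; ring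
    have e2 : (1 - u) ^ 2 ≤ (1 / n) ^ 2 := by
      refine pow_le_pow_left₀ (by linarith) ?_ 2
      rw [hθ] at huθ
      linarith
    have e3 : ρ ^ 2 * (1 - u) ^ 2 ≤ n * (1 / n) ^ 2 :=
      mul_le_mul hρn e2 (sq_nonneg _) hn0.le
    have e4 : (n : ℝ) * (1 / n) ^ 2 = 1 / n := by field_simp
    rw [e1, hρθ, hθ]
    linarith
  -- the constants
  obtain ⟨C0, hC0⟩ : ∃ C0 : ℝ, C0 = Real.exp ((n : ℝ) / 2 + (n : ℝ) / 2 * Real.log (1 - c ^ 2)) :=
    ⟨_, rfl⟩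
  have hC00 : 0 < C0 := by rw [hC0]; exact Real.exp_pos _
  obtain ⟨G₀, hG₀⟩ : ∃ G₀ : ℝ, G₀ = (Real.pi / (2 * n * ((1 - c) / 2))) ^ ((n : ℝ) / 2) :=
    ⟨_, rfl⟩
  have hG₀0 : 0 < G₀ := by rw [hG₀]; exact Real.rpow_pos_of_pos (by positivity) _
  obtain ⟨R₁, hR₁⟩ : ∃ R₁ : ℝ, R₁ = C0 * (Real.exp 1 * G₀) * Real.exp 1 := ⟨_, rfl⟩
  have hR₁0 : 0 < R₁ := by rw [hR₁]; positivity
  -- the grid
  have e1 : ∀ᶠ δ : ℝ in 𝓝[>] 0, n * (4 * ((1 - c) / 2) / (1 - c ^ 2) ^ 2) *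
      ((4 * ρ + 1) * δ) < 1 :=
    ev (by fun_prop) continuous_const (by simp)
  have e2 : ∀ᶠ δ : ℝ in 𝓝[>] 0, n * ((4 * ρ + 1) * δ) < 1 :=
    ev (by fun_prop) continuous_const (by simp)
  have e3 : ∀ᶠ δ : ℝ in 𝓝[>] 0, δ < 1 := ev continuous_id continuous_const one_pos
  have e4 : ∀ᶠ δ : ℝ in 𝓝[>] 0, M * (δ ^ n * V1 n) < R₁ := by
    refine ev (by fun_prop) continuous_const ?_
    rw [zero_pow hnpos.ne', zero_mul, mul_zero]
    exact hR₁0
  obtain ⟨δ, f1, f2, f3, f4, hδ⟩ := (e1.and (e2.and (e3.and (e4.and self_mem_nhdsWithin)))).exists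
  have hδ0 : 0 < δ := hδ
  obtain ⟨hΛ, hb, hvol⟩ := vol_shell (n := n) ha0 haρ
  obtain ⟨X, F, hXΛ, hF, hF0, hFt, hFδ, hdis, hcard⟩ :=
    Pool.Agent.Y509.KP.exists_grid hΛ hb hδ0
  have hXs : ∀ x ∈ X, a₀ ≤ ‖x‖ ∧ ‖x‖ < ρ := fun x hx => hXΛ hx
  have hG : Gr X F δ ρ := ⟨hF, hFt, hF0, hδ0.le, f3.le, hρ0.le, hFδ, hdis,
    fun x hx => (hXs x hx).2.le⟩
  obtain ⟨f, hf⟩ : ∃ f : ℝ, f = volume.real F := ⟨_, rfl⟩
  have hf0 : 0 < f := by rw [hf]; exact hF0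
  obtain ⟨H, hH⟩ : ∃ H : ℝ, H = (volume.real F)⁻¹ * Real.exp 1 *
    (Real.pi / (2 * n * ((1 - c) / 2))) ^ ((n : ℝ) / 2) := ⟨_, rfl⟩
  have hHf : H * f = Real.exp 1 * G₀ := by
    rw [hH, ← hG₀, ← hf]
    field_simp
  have hH0 : 0 < H := by
    rw [hH, ← hG₀, ← hf]
    positivity
  obtain ⟨R, hR⟩ : ∃ R : ℝ, R = C0 * H * Real.exp 1 := ⟨_, rfl⟩
  have hR0 : 0 < R := by rw [hR]; positivity
  have hRf : R * f = R₁ := by
    rw [hR, hR₁, ← hHf]
    ring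
  have hfδ : f ≤ δ ^ n * V1 n := by
    have e5 : volume.real (closedBall (0 : E n) δ) = δ ^ n * V1 n := by
      rw [Measure.addHaar_real_closedBall volume 0 hδ0.le, finrank_euclideanSpace_fin]
      rfl
    rw [hf, ← e5]
    exact measureReal_mono hFδ (isCompact_closedBall _ _).measure_lt_top.ne
  have hMR : M ≤ R := by
    have e5 : M * f ≤ R * f := by
      rw [hRf]
      exact (mul_le_mul_of_nonneg_left hfδ hM).trans f4.le
    exact le_of_mul_le_mul_right e5 hf0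
  -- the matrix
  have hX1 : ∀ z ∈ X, 2 * (1 - c) * ‖z‖ ^ 2 ≤ 1 := by
    intro z hz
    have e5 : ‖z‖ ^ 2 ≤ ρ ^ 2 := pow_le_pow_left₀ (norm_nonneg _) (hXs z hz).2.le 2
    have e6 := mul_le_mul_of_nonneg_left e5 (show 0 ≤ 2 * (1 - c) by positivity)
    rw [hρθ] at e6
    linarith
  have hX2 : ∀ z ∈ X, 1 - 2 / (n : ℝ) ≤ 2 * (1 - c) * ‖z‖ ^ 2 := by
    intro z hz
    have e5 : a₀ ^ 2 ≤ ‖z‖ ^ 2 := pow_le_pow_left₀ ha0.le (hXs z hz).1 2
    have e6 := mul_le_mul_of_nonneg_left e5 (show 0 ≤ 2 * (1 - c) by positivity)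
    have e7 : 2 * (1 - c) * a₀ ^ 2 = θ ^ 2 := by
      rw [ha₀, mul_pow, hu2]
      calc 2 * (1 - c) * (θ * ρ ^ 2) = θ * (2 * (1 - c) * ρ ^ 2) := by ring
        _ = θ ^ 2 := by rw [hρθ]; ring
    have e8 : 1 - 2 / (n : ℝ) ≤ θ ^ 2 := by
      rw [hθ]
      have : (1 - 1 / (n : ℝ)) ^ 2 = 1 - 2 / n + (1 / n) ^ 2 := by ring
      rw [this]
      have := sq_nonneg (1 / (n : ℝ))
      linarith
    linarith
  obtain ⟨A, hA⟩ : ∃ A : Matrix X X ℝ,
      A = fun x y : X => if dist (x : E n) (y : E n) < 1 then (1 : ℝ) else 0 := ⟨_, rfl⟩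
  have hAs : ∀ x y, A x y = A y x := by
    intro x y
    rw [hA]
    simp only
    rw [dist_comm]
  have hA01 : ∀ x y, A x y = 0 ∨ A x y = 1 := by
    intro x y
    rw [hA]
    simp only
    split_ifs
    · exact Or.inr rfl
    · exact Or.inl rfl
  have hA0 : ∀ x y, 0 ≤ A x y := by
    intro x y
    rcases hA01 x y with h | h <;> rw [h] <;> norm_num
  have hAd : ∀ x y : X, A x y ≤ C0 * KQ n ((1 - c) / 2) c (x : E n) (y : E n) := by
    intro x y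
    rw [hA]
    simp only
    split_ifs with hd
    · rw [hC0]
      exact dom hc0 hc1 (hX1 x x.2) (hX1 y y.2) hd
    · exact mul_nonneg hC00.le (KQ_pos _ _ _ _).le
  have hrow : ∀ x, ∑ y, A x y ≤ R := by
    intro x
    have e5 := row hG hnpos hc0 hc1 (η := 2 / n) (ε := 1) (by positivity) f2.le hH hC0
      (hG.bd x x.2) (hX2 x x.2) hX1
    have e6 : (n : ℝ) * (2 / n) / 2 = 1 := by field_simp
    rw [e6, ← hR] at e5
    refine le_trans (le_of_eq ?_) e5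
    rw [hA]
    exact Finset.sum_coe_sort X fun z => if dist (x : E n) z < 1 then (1 : ℝ) else 0
  have hq0 : 0 < c ^ m := pow_pos hc0 _
  have hq1 : c ^ m < 1 := pow_lt_one₀ hc0.le hc1 hm0
  obtain ⟨Y, hY⟩ : ∃ Y : ℝ, Y = Real.exp (-((n : ℝ) / 2) * Real.log (1 - (c ^ m) ^ 2) -
      (n : ℝ) / 2 * ((1 - 2 / n) * ((1 - c ^ m) / (1 + c ^ m)))) := ⟨_, rfl⟩
  have hY0 : 0 < Y := by rw [hY]; exact Real.exp_pos _
  have hwalk : ∀ x, (A ^ m) x x ≤ (C0 * H) ^ m / H * Y := by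
    intro x
    have e5 := (walk hG hnpos (show 0 < (1 - c) / 2 by positivity) hc0 hc1 f1.le hC00.le hH A hA0
      hAd (m - 1) x x).2
    rw [show m - 1 + 1 = m by omega] at e5
    refine e5.trans (mul_le_mul_of_nonneg_left ?_ (by positivity))
    rw [hY]
    exact KQ_diag hc1 hq0 hq1 (hX2 x x.2)
  have hm1 : 1 ≤ m := by omega
  have hϑ : 0 < Real.exp (-(g * n)) * R := by positivity
  have hβ : (C0 * H) ^ m / H * Y / (Real.exp (-(g * n)) * R) ^ (m - 1) ≤ s₀ := by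
    refine le_trans ?_ hs₀
    rw [div_le_iff₀ (pow_pos hϑ _), mul_pow (Real.exp (-(g * n))) R]
    have e5 : (C0 * H) ^ m / H = C0 * (C0 * H) ^ (m - 1) := by
      obtain ⟨j, hj⟩ : ∃ j, m = j + 1 := ⟨m - 1, by omega⟩
      rw [hj, Nat.add_sub_cancel, pow_succ]
      field_simp
    have e6 : (C0 * H) ^ (m - 1) ≤ R ^ (m - 1) := by
      refine pow_le_pow_left₀ (by positivity) ?_ _
      rw [hR]
      exact le_mul_of_one_le_right (by positivity) (Real.one_le_exp (by norm_num))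
    have e7 : Real.exp (ex n m c g) * (Real.exp (-(g * n)) ^ (m - 1) * R ^ (m - 1)) =
        C0 * R ^ (m - 1) * Y := by
      rw [hC0, hY, ← Real.exp_nat_mul, ← mul_assoc, ← Real.exp_add, mul_right_comm,
        ← Real.exp_add]
      congr 2
      unfold ex
      ring
    rw [e5, e7]
    exact mul_le_mul_of_nonneg_right (mul_le_mul_of_nonneg_left e6 hC00.le) hY0.le
  have hs00 : 0 ≤ s₀ := (Real.exp_pos _).le.trans hs₀
  obtain ⟨k, hk1, hk2, hk3⟩ := kern A hAs hϑ hmE hm1 hA01 hrow hwalk hβ hs00 hs₁ hR0.le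
    le_rfl (Real.sqrt_nonneg (5 * R)) (by
      rw [Real.sq_sqrt (by positivity)]
      linarith)
  refine ⟨a₀, ρ, R, X, k, ha0, hgeo, hXs, hR0, hMR, hk1, hk2, fun x y hd => ?_, ?_⟩
  · refine hk3 x y ?_
    rw [hA]
    simp only
    rw [if_pos hd]
  -- the number of the points
  · have hV := V1_pos hnpos
    have g1 : u ^ n = Real.exp ((n : ℝ) / 2 * Real.log θ) := by
      have : u ^ n = (u ^ 2) ^ ((n : ℝ) / 2) := by
        rw [← Real.rpow_natCast u 2, ← Real.rpow_mul hu0.le, ← Real.rpow_natCast]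
        congr 1
        push_cast
        ring
      rw [this, hu2, Real.rpow_def_of_pos hθ0, mul_comm]
    have g2 : 1 / 3 ≤ u ^ n := by
      rw [g1]
      have e5 := Real.one_sub_inv_le_log_of_pos hθ0
      have e6 : -(2 / (n : ℝ)) ≤ 1 - θ⁻¹ := by
        have e7 : θ⁻¹ ≤ 1 + 2 / n := by
          rw [inv_le_iff_one_le_mul₀ hθ0, hθ]
          have e8 : (1 + 2 / (n : ℝ)) * (1 - 1 / n) = 1 + 1 / n * (1 - 2 * (1 / n)) := by ring
          rw [e8]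
          have : 0 ≤ 1 / (n : ℝ) * (1 - 2 * (1 / n)) := mul_nonneg hinv0.le (by linarith)
          linarith
        linarith
      have e7 : -1 ≤ (n : ℝ) / 2 * Real.log θ := by
        have e8 := mul_le_mul_of_nonneg_left (e6.trans e5) (show 0 ≤ (n : ℝ) / 2 by positivity)
        have e9 : (n : ℝ) / 2 * -(2 / n) = -1 := by field_simp
        linarith
      refine le_trans ?_ (Real.exp_le_exp.2 e7)
      rw [Real.exp_neg, one_div]
      exact inv_anti₀ (Real.exp_pos 1) (by linarith [Real.exp_one_lt_d9])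
    have g3 : u ^ n ≤ 2 / 3 := by
      rw [g1]
      have e5 := Real.log_le_sub_one_of_pos hθ0
      have e7 : (n : ℝ) / 2 * Real.log θ ≤ -(1 / 2) := by
        have e8 := mul_le_mul_of_nonneg_left e5 (show 0 ≤ (n : ℝ) / 2 by positivity)
        have e9 : (n : ℝ) / 2 * (θ - 1) = -(1 / 2) := by
          rw [hθ]
          field_simp
          ring
        linarith
      refine (Real.exp_le_exp.2 e7).trans ?_
      rw [Real.exp_neg, show (2 : ℝ) / 3 = (3 / 2)⁻¹ by norm_num]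
      refine inv_anti₀ (by norm_num) ?_
      have := Real.add_one_le_exp (1 / 2 : ℝ)
      linarith
    have g4 : (1 / √(1 - c ^ 2)) ^ n * C0 = Real.exp ((n : ℝ) / 2) := by
      have e5 : (1 / √(1 - c ^ 2)) ^ n = Real.exp (-((n : ℝ) / 2 * Real.log (1 - c ^ 2))) := by
        rw [one_div, ← Real.exp_log (inv_pos.2 (Real.sqrt_pos.2 hcc)), ← Real.exp_nat_mul,
          Real.log_inv, Real.log_sqrt hcc.le]
        congr 1
        ring
      rw [e5, hC0, ← Real.exp_add]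
      congr 1
      ring
    have g5 : Pool.Agent.H85G.bb n * ρ ^ n = u ^ n * (Real.exp ((n : ℝ) / 2) * G₀) := by
      have e5 : ρ ^ n = u ^ n * (1 / (2 * (1 - c))) ^ ((n : ℝ) / 2) := by
        have e6 : ρ = u * √(1 / (2 * (1 - c))) := by
          rw [hρ, hu, ← Real.sqrt_mul hθ0.le, mul_one_div]
        rw [e6, mul_pow]
        congr 1
        rw [Real.sqrt_eq_rpow, ← Real.rpow_natCast, ← Real.rpow_mul (by positivity)]
        congr 1
        ring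
      rw [e5]
      unfold Pool.Agent.H85G.bb
      have e7 : (2 * Real.pi * (1 / n)) ^ ((n : ℝ) / 2) * (1 / (2 * (1 - c))) ^ ((n : ℝ) / 2) =
          G₀ := by
        rw [← Real.mul_rpow (by positivity) (by positivity), hG₀]
        congr 1
        field_simp
      rw [← e7]
      ring
    have g6 : (1 / √(1 - c ^ 2)) ^ n * R₁ = Real.exp 1 ^ 2 * (Real.exp ((n : ℝ) / 2) * G₀) := by
      rw [hR₁, ← g4]
      ring
    have g7 : Real.exp ((n : ℝ) / 2) * G₀ ≤ 27 * n * ((ρ ^ n - a₀ ^ n) * V1 n) := by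
      have e5 : a₀ ^ n = u ^ n * ρ ^ n := by rw [ha₀, mul_pow]
      have e6 := V1_bb hnpos
      have hρn0 : 0 < ρ ^ n := pow_pos hρ0 n
      have e7 : Pool.Agent.H85G.bb n * ρ ^ n ≤ 3 * n * V1 n * ρ ^ n :=
        mul_le_mul_of_nonneg_right e6 hρn0.le
      rw [g5] at e7
      have e8 : 1 / 3 * (Real.exp ((n : ℝ) / 2) * G₀) ≤ 3 * n * V1 n * ρ ^ n :=
        le_trans (mul_le_mul_of_nonneg_right g2 (by positivity)) e7
      have e9 : 1 / 3 * ρ ^ n ≤ ρ ^ n - a₀ ^ n := by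
        rw [e5]
        nlinarith
      have e10 : 0 ≤ 27 * (n : ℝ) * V1 n := by positivity
      have e11 := mul_le_mul_of_nonneg_left e9 e10
      calc Real.exp ((n : ℝ) / 2) * G₀ = 3 * (1 / 3 * (Real.exp ((n : ℝ) / 2) * G₀)) := by ring
        _ ≤ 3 * (3 * n * V1 n * ρ ^ n) := mul_le_mul_of_nonneg_left e8 (by norm_num)
        _ = 27 * n * V1 n * (1 / 3 * ρ ^ n) := by ring
        _ ≤ 27 * n * V1 n * (ρ ^ n - a₀ ^ n) := e11
        _ = _ := by ring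
    have g8 : Real.exp 1 ^ 2 ≤ 9 := by
      have := Real.exp_one_lt_d9
      have := Real.exp_pos 1
      nlinarith
    rw [hvol, ← hf] at hcard
    have g9 : (1 / √(1 - c ^ 2)) ^ n * R * f ≤ 243 * n * X.card * f := by
      calc (1 / √(1 - c ^ 2)) ^ n * R * f = (1 / √(1 - c ^ 2)) ^ n * R₁ := by
            rw [← hRf]
            ring
        _ = Real.exp 1 ^ 2 * (Real.exp ((n : ℝ) / 2) * G₀) := g6
        _ ≤ 9 * (27 * n * ((ρ ^ n - a₀ ^ n) * V1 n)) :=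
            mul_le_mul g8 g7 (by positivity) (by norm_num)
        _ ≤ 9 * (27 * n * (X.card * f)) := by
            refine mul_le_mul_of_nonneg_left ?_ (by norm_num)
            exact mul_le_mul_of_nonneg_left hcard (by positivity)
        _ = 243 * n * X.card * f := by ring
    exact le_of_mul_le_mul_right g9 hf0

end Pool.Agent.H2xRK
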