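import Mathlib
import Pool.Agent.H2xRK.Code
import Pool.Agent.H2xRK.Eng
import Pool.Agent.H2xRK.Shell

/-!
H2xRK (helper2, MP_b5f63d_co): the lower bound for the hierarchy.
-/

set_option autoImplicit false
set_option linter.unusedSectionVars false

open MeasureTheory Filter Topology

namespace Pool.Agent.H2xRK

lemma evn (C ω : ℝ) (hω : 0 < ω) : ∀ᶠ n : ℕ in atTop, C * n ≤ Real.exp (n * ω) := by
  have h1 : ∀ᶠ n : ℕ in atTop, 4 * C / ω ^ 2 ≤ (n : ℝ) :=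
    tendsto_natCast_atTop_atTop.eventually_ge_atTop _
  filter_upwards [h1] with n hn
  have hn0 : (0 : ℝ) ≤ n := Nat.cast_nonneg n
  rw [div_le_iff₀ (by positivity)] at hn
  have h2 : Real.exp (n * ω) = Real.exp (n * ω / 2) ^ 2 := by
    rw [← Real.exp_nat_mul]
    congr 1
    push_cast
    ring
  have h3 : n * ω / 2 ≤ Real.exp (n * ω / 2) := by linarith [Real.add_one_le_exp (n * ω / 2)]
  have h4 : (n * ω / 2) ^ 2 ≤ Real.exp (n * ω / 2) ^ 2 :=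
    pow_le_pow_left₀ (by positivity) h3 2
  rw [h2]
  refine le_trans ?_ h4
  have h5 := mul_le_mul_of_nonneg_left hn hn0
  have h6 : (n * ω / 2) ^ 2 = n * (n * ω ^ 2) / 4 := by ring
  rw [h6]
  linarith

/-- the exponent: natural logarithms -/
noncomputable def Fc (c : ℝ) (m : ℕ) : ℝ :=
  -(1 / 2 * Real.log (1 - c ^ 2)) + 1 / 2 * Real.log (1 - (c ^ m) ^ 2) - c ^ m / (1 + c ^ m)

lemma Fc_tendsto {c : ℝ} (hc0 : 0 < c) (hc1 : c < 1) :
    Tendsto (fun j : ℕ => Fc c (2 * j)) atTop (𝓝 (-(1 / 2 * Real.log (1 - c ^ 2)))) := by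
  have h1 : Tendsto (fun j : ℕ => c ^ (2 * j)) atTop (𝓝 0) :=
    (tendsto_pow_atTop_nhds_zero_of_lt_one hc0.le hc1).comp
      (tendsto_id.const_mul_atTop' (by norm_num : (0 : ℕ) < 2))
  have h2 : ContinuousAt (fun q : ℝ => -(1 / 2 * Real.log (1 - c ^ 2)) +
      1 / 2 * Real.log (1 - q ^ 2) - q / (1 + q)) 0 := by
    have e1 : ContinuousAt (fun q : ℝ => Real.log (1 - q ^ 2)) 0 :=
      ContinuousAt.log (by fun_prop) (by norm_num)
    have e2 : ContinuousAt (fun q : ℝ => q / (1 + q)) 0 :=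
      ContinuousAt.div (by fun_prop) (by fun_prop) (by norm_num)
    exact (continuousAt_const.add (continuousAt_const.mul e1)).sub e2
  have h4 := h2.tendsto.comp h1
  have h5 : -(1 / 2 * Real.log (1 - c ^ 2)) + 1 / 2 * Real.log (1 - (0 : ℝ) ^ 2) -
      (0 : ℝ) / (1 + 0) = -(1 / 2 * Real.log (1 - c ^ 2)) := by
    norm_num
  rw [h5] at h4
  exact h4

lemma ex_eq {n m : ℕ} {c g : ℝ} (hn : (0 : ℝ) < n) (hq : 0 < c ^ m) :
    ex n m c g ≤ -(n * Fc c m) + n * (g * (m - 1 : ℕ)) + 1 := by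
  unfold ex Fc
  obtain ⟨q, hqd⟩ : ∃ q : ℝ, q = c ^ m := ⟨_, rfl⟩
  rw [← hqd] at hq ⊢
  have h1 : (1 - q) / (1 + q) = 1 - 2 * (q / (1 + q)) := by
    field_simp
    ring
  obtain ⟨w, hw⟩ : ∃ w : ℝ, w = q / (1 + q) := ⟨_, rfl⟩
  have hw0 : 0 ≤ w := by rw [hw]; positivity
  rw [h1, ← hw]
  have h3 : (n : ℝ) / 2 * ((1 - 2 / n) * (1 - 2 * w)) = n / 2 * (1 - 2 * w) - (1 - 2 * w) := by
    field_simp
  rw [h3]
  nlinarith

/-- **The lower bound.** -/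
theorem lower {c κ γ : ℝ} {m : ℕ} (hc0 : 0 < c) (hc1 : c < 1) (hmE : Even m) (hm0 : m ≠ 0)
    (hγ : 0 ≤ γ) (hγκ : γ ≤ κ) (h : κ + (m - 1 : ℕ) * γ < Fc c m) :
    ∃ c' : ℝ, 0 < c' ∧ ∃ n₀ : ℕ, ∀ n ≥ n₀, ∀ a b t : ℕ, 1 ≤ t →
      (a : ℝ) ≤ Real.exp (κ * n) → (t : ℝ) * Real.log n ≤ c' * n → ∀ B : ℝ, GSB n a b t c B →
        (1 / √(1 - c ^ 2)) ^ n * Real.exp (γ * n / t) ≤ B := by
  classical
  have hcc : 0 < 1 - c ^ 2 := by nlinarith
  have hκ0 : 0 ≤ κ := hγ.trans hγκ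
  obtain ⟨S, hS⟩ : ∃ S : ℝ, S = Fc c m - κ - (m - 1 : ℕ) * γ := ⟨_, rfl⟩
  have hS0 : 0 < S := by rw [hS]; linarith
  have hm1' : (1 : ℝ) ≤ m := by
    have : 1 ≤ m := by omega
    exact_mod_cast this
  obtain ⟨η, hη⟩ : ∃ η : ℝ, η = S / (8 * m) := ⟨_, rfl⟩
  have hη0 : 0 < η := by rw [hη]; positivity
  have hηm : η * m = S / 8 := by
    rw [hη]
    field_simp
  have hηS : η ≤ S / 8 := by
    rw [← hηm]
    exact le_mul_of_one_le_right hη0.le hm1'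
  obtain ⟨g, hg⟩ : ∃ g : ℝ, g = γ + 3 * η := ⟨_, rfl⟩
  obtain ⟨γ₀, hγ₀⟩ : ∃ γ₀ : ℝ, γ₀ = γ + η := ⟨_, rfl⟩
  have hγ₀0 : 0 ≤ γ₀ := by rw [hγ₀]; linarith
  have hgm : g * (m - 1 : ℕ) ≤ (m - 1 : ℕ) * γ + 3 * (S / 8) := by
    have e1 : ((m - 1 : ℕ) : ℝ) ≤ m := by exact_mod_cast Nat.sub_le m 1
    have e2 : η * (m - 1 : ℕ) ≤ η * m := mul_le_mul_of_nonneg_left e1 hη0.le
    rw [hg]
    linarith
  have hl320 : 0 ≤ Real.log 320 := Real.log_nonneg (by norm_num)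
  obtain ⟨c', hc'⟩ : ∃ c' : ℝ, c' = min (min 1 (η / (2 * (Real.log 320 + 6)))) (η / 7) :=
    ⟨_, rfl⟩
  have hc'0 : 0 < c' := by
    rw [hc']
    exact lt_min (lt_min one_pos (by positivity)) (by positivity)
  have hc'1 : c' ≤ min 1 (η / (2 * (Real.log 320 + 6))) := by rw [hc']; exact min_le_left _ _
  have hc'2 : c' ≤ η / 7 := by rw [hc']; exact min_le_right _ _
  refine ⟨c', hc'0, ?_⟩
  have hN : ∀ C : ℝ, ∀ᶠ n : ℕ in atTop, C ≤ (n : ℝ) := fun C =>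
    tendsto_natCast_atTop_atTop.eventually_ge_atTop C
  have hall := ((hN 3).and (hN (1 / (2 * (1 - c))))).and
    (((evn 72 (η / 2) (by positivity)).and (evn 6 (S / 2) (by positivity))).and (hN (8 / S)))
  obtain ⟨n₀, hn₀⟩ := eventually_atTop.1 hall
  refine ⟨n₀, fun n hn a b t ht hac htc B hB => ?_⟩
  obtain ⟨⟨E1, E2⟩, ⟨E3, E4⟩, E5⟩ := hn₀ n hn
  have hn0 : (0 : ℝ) < n := by linarith
  have hn3 : 3 ≤ n := by exact_mod_cast E1
  have hlog1 : 1 ≤ Real.log n := by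
    rw [Real.le_log_iff_exp_le hn0]
    linarith [Real.exp_one_lt_d9]
  have ht1 : (1 : ℝ) ≤ t := by exact_mod_cast ht
  have ht0 : (0 : ℝ) < t := by linarith
  have htn : (t : ℝ) ≤ n := by
    have b1 : (t : ℝ) * 1 ≤ t * Real.log n := mul_le_mul_of_nonneg_left hlog1 (by linarith)
    have b2 : c' * n ≤ 1 * n :=
      mul_le_mul_of_nonneg_right (hc'1.trans (min_le_left _ _)) hn0.le
    linarith
  -- the deviation
  obtain ⟨s₀, hs₀⟩ : ∃ s₀ : ℝ, s₀ = Real.exp (-(n * (κ + S / 2))) := ⟨_, rfl⟩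
  have hs₀0 : 0 < s₀ := by rw [hs₀]; exact Real.exp_pos _
  have hex : Real.exp (ex n m c g) ≤ s₀ := by
    rw [hs₀, Real.exp_le_exp]
    refine (ex_eq hn0 (pow_pos hc0 m)).trans ?_
    have e1 := mul_le_mul_of_nonneg_left hgm hn0.le
    have e2 : Fc c m = S + κ + (m - 1 : ℕ) * γ := by rw [hS]; ring
    rw [div_le_iff₀ hS0] at E5
    rw [e2]
    nlinarith
  obtain ⟨r, hr⟩ : ∃ r : ℕ, r = a + 2 * t := ⟨_, rfl⟩
  have hexp1 : 1 ≤ Real.exp (κ * n) := Real.one_le_exp (by positivity)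
  have hrr : (r : ℝ) ≤ 3 * n * Real.exp (κ * n) := by
    rw [hr]
    push_cast
    nlinarith
  have hrs : (r : ℝ) * s₀ ≤ 1 / 2 := by
    have e1 : s₀ = Real.exp (-(κ * n)) * Real.exp (-(n * (S / 2))) := by
      rw [hs₀, ← Real.exp_add]
      congr 1
      ring
    have e2 : Real.exp (κ * n) * Real.exp (-(κ * n)) = 1 := by
      rw [← Real.exp_add, add_neg_cancel, Real.exp_zero]
    have e3 : Real.exp (n * (S / 2)) * Real.exp (-(n * (S / 2))) = 1 := by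
      rw [← Real.exp_add, add_neg_cancel, Real.exp_zero]
    have e4 := mul_le_mul_of_nonneg_right E4 (Real.exp_pos (-(n * (S / 2)))).le
    rw [e3] at e4
    calc (r : ℝ) * s₀ ≤ 3 * n * Real.exp (κ * n) * s₀ :=
          mul_le_mul_of_nonneg_right hrr hs₀0.le
      _ = 3 * n * (Real.exp (κ * n) * Real.exp (-(κ * n))) * Real.exp (-(n * (S / 2))) := by
          rw [e1]
          ring
      _ = 3 * n * Real.exp (-(n * (S / 2))) := by
          rw [e2]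
          ring
      _ ≤ 1 / 2 := by linarith
  have hr1 : (1 : ℝ) ≤ r := by
    have : 1 ≤ r := by omega
    exact_mod_cast this
  have hs₀1 : s₀ ≤ 1 := by
    have := le_mul_of_one_le_left hs₀0.le hr1
    linarith
  -- the kernel
  obtain ⟨M, hM⟩ : ∃ M : ℝ, M = Mb (1 + s₀) (Real.exp (γ₀ * n / t)) (a + b + 4 * t) (b + 2 * t) t :=
    ⟨_, rfl⟩
  have hM0 : 0 ≤ M := by
    rw [hM]
    unfold Mb Cs
    have := hs₀0.le
    positivity
  obtain ⟨a₀, ρ, R, X, k, ha0, hgeo, hX, hR0, hMR, hk1, hk2, hk3, hcard⟩ :=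
    shell_kern hc0 hc1 (by omega : 2 ≤ n) E2 hmE hm0 hM0 hex hs₀1
  obtain ⟨Λ, hΛ⟩ : ∃ Λ : ℝ, Λ = Real.exp (-(g * n)) * R + s₀ * R := ⟨_, rfl⟩
  rw [← hΛ] at hk1
  have hg0 : 0 ≤ g * n := by
    rw [hg]
    positivity
  have hΛR : Λ / R = Real.exp (-(g * n)) + s₀ := by
    rw [hΛ]
    field_simp
  have hexg : Real.exp (-(g * n)) ≤ 1 := by
    rw [Real.exp_le_one_iff]
    linarith
  have hΛ5 : Λ ≤ 5 * R := by
    rw [hΛ]
    nlinarith
  have hx1 : Λ / R * Real.exp (γ₀ * n) ≤ 3 * Real.exp (-(n * η)) := by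
    rw [hΛR, add_mul, ← Real.exp_add, hs₀, ← Real.exp_add]
    have e1 : -(g * n) + γ₀ * n ≤ -(n * η) := by
      rw [hg, hγ₀]
      have : 0 ≤ n * η := by positivity
      linarith
    have e2 : -(n * (κ + S / 2)) + γ₀ * n ≤ -(n * η) := by
      rw [hγ₀]
      have e3 := mul_le_mul_of_nonneg_left hγκ hn0.le
      have e4 := mul_le_mul_of_nonneg_left hηS hn0.le
      have e5 : 0 ≤ n * S := by positivity
      linarith
    have e3 := Real.exp_le_exp.2 e1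
    have e4 := Real.exp_le_exp.2 e2
    have e5 := Real.exp_pos (-(n * η))
    linarith
  have hE72 : 72 ≤ Real.exp (n * (η / 2)) := by linarith
  have hk0 : ∀ x, k x x = 0 := fun x => hk3 x x (by rw [dist_self]; norm_num)
  rw [hr] at hrs
  rw [hM] at hMR
  obtain ⟨y, hy1, hy2⟩ := eng (R := fun u v : X => dist (u : E n) v < 1) hk1 hk2 hk0 hR0 hs₀0.le
    hrs hΛ5 hγ₀0 hη0 hx1 hMR ht E1 hc'1 htc hE72 hk3
  have h1 := gtransfer (by omega : 2 ≤ n) hc1 ha0 hgeo hB hX hy1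
  simp_rw [hy2] at h1
  rw [Finset.sum_const, nsmul_eq_mul, Finset.card_univ, Fintype.card_coe] at h1
  refine le_trans ?_ h1
  -- the gain
  have hgain : 243 * (n : ℝ) ≤ Real.exp (η * n / t) := by
    have e1 : Real.log (243 * n) ≤ 7 * Real.log n := by
      rw [Real.log_mul (by norm_num) hn0.ne']
      have e2 : Real.log 243 ≤ 6 * Real.log n := by
        have : (6 : ℝ) * Real.log n = Real.log ((n : ℝ) ^ 6) := by
          rw [Real.log_pow]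
          push_cast
          ring
        rw [this]
        refine Real.log_le_log (by norm_num) ?_
        calc (243 : ℝ) ≤ 3 ^ 6 := by norm_num
          _ ≤ (n : ℝ) ^ 6 := pow_le_pow_left₀ (by norm_num) E1 6
      linarith
    have e2 : 7 * Real.log n ≤ η * n / t := by
      rw [le_div_iff₀ ht0]
      have e3 : (t : ℝ) * Real.log n ≤ η / 7 * n :=
        htc.trans (mul_le_mul_of_nonneg_right hc'2 hn0.le)
      linarith
    rw [← Real.log_le_iff_le_exp (by positivity)]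
    linarith
  have hE2 : Real.exp (γ₀ * n / t) = Real.exp (γ * n / t) * Real.exp (η * n / t) := by
    rw [← Real.exp_add, hγ₀]
    congr 1
    ring
  obtain ⟨P, hP⟩ : ∃ P : ℝ, P = (1 / √(1 - c ^ 2)) ^ n := ⟨_, rfl⟩
  have hP0 : 0 ≤ P := by rw [hP]; positivity
  rw [← hP] at hcard ⊢
  obtain ⟨G, hG⟩ : ∃ G : ℝ, G = Real.exp (γ * n / t) := ⟨_, rfl⟩
  obtain ⟨G', hG'⟩ : ∃ G' : ℝ, G' = Real.exp (η * n / t) := ⟨_, rfl⟩
  rw [← hG'] at hgain
  rw [← hG, ← hG'] at hE2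
  rw [← hG]
  have hG0 : 0 < G := by rw [hG]; exact Real.exp_pos _
  rw [hE2, ← mul_div_assoc, le_div_iff₀ hR0]
  calc P * G * R = G * (P * R) := by ring
    _ ≤ G * (243 * n * X.card) := mul_le_mul_of_nonneg_left hcard hG0.le
    _ = G * X.card * (243 * n) := by ring
    _ ≤ G * X.card * G' := mul_le_mul_of_nonneg_left hgain (by positivity)
    _ = X.card * (G * G') := by ring

/-- the choice of `m` and `γ` -/
lemma exists_m {c κ : ℝ} (hc0 : 0 < c) (hc1 : c < 1) (hκ : κ < -(1 / 2 * Real.log (1 - c ^ 2))) :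
    ∃ (m : ℕ) (κ' γ : ℝ), Even m ∧ m ≠ 0 ∧ 0 < γ ∧ γ ≤ κ' ∧ κ ≤ κ' ∧
      κ' + (m - 1 : ℕ) * γ < Fc c m := by
  have hcc : 0 < 1 - c ^ 2 := by nlinarith
  have hcc1 : 1 - c ^ 2 < 1 := by nlinarith
  have hD0 : 0 < -(1 / 2 * Real.log (1 - c ^ 2)) := by linarith [Real.log_neg hcc hcc1]
  obtain ⟨κ₁, hκ₁⟩ : ∃ κ₁ : ℝ, κ₁ = max κ 0 := ⟨_, rfl⟩
  have a1 : κ ≤ κ₁ := by rw [hκ₁]; exact le_max_left _ _
  have a2 : 0 ≤ κ₁ := by rw [hκ₁]; exact le_max_right _ _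
  have a3 : κ₁ < -(1 / 2 * Real.log (1 - c ^ 2)) := by
    rw [hκ₁]
    exact max_lt hκ hD0
  obtain ⟨j, hj1, hj2⟩ := (((Fc_tendsto hc0 hc1).eventually (lt_mem_nhds a3)).and
    (eventually_ge_atTop 1)).exists
  have hm1 : (1 : ℝ) ≤ (2 * j : ℕ) := by
    have : 1 ≤ 2 * j := by omega
    exact_mod_cast this
  obtain ⟨γ, hγ⟩ : ∃ γ : ℝ, γ = (Fc c (2 * j) - κ₁) / (2 * (2 * j : ℕ)) := ⟨_, rfl⟩
  have hγ0 : 0 < γ := by
    rw [hγ]
    exact div_pos (by linarith) (by linarith)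
  refine ⟨2 * j, κ₁ + γ, γ, even_two_mul j, by omega, hγ0, by linarith, by linarith, ?_⟩
  have e1 : ((2 * j - 1 : ℕ) : ℝ) = (2 * j : ℕ) - 1 := by
    rw [Nat.cast_sub (by omega)]
    push_cast
    ring
  have e2 : (2 * j : ℕ) * γ = (Fc c (2 * j) - κ₁) / 2 := by
    rw [hγ]
    field_simp
  rw [e1]
  linarith

end Pool.Agent.H2xRK
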